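import Pool.Agent.Helper69.PG.Pigeon

/-!
Project PG (MP_13b103), block E: the pigeonhole of note 3123 (5), form with a full box of tilts.
-/

namespace Pool.Agent.Helper69.PG

open Finset

/-- convexity: the values in the small box are bounded by the values at `η ± δ e_i` -/
lemma box_le {m : ℕ} {s δ B : ℝ} (hδ : 0 < δ) {f : (Fin m → ℝ) → ℝ}
    (hf : ConvexOn ℝ {η : Fin m → ℝ | ∀ i, |η i| ≤ s} f) {η : Fin m → ℝ}
    (hη : ∀ i, |η i| + δ ≤ s) (hB0 : f η ≤ B)
    (hB : ∀ i, f (Function.update η i (η i + δ)) ≤ B ∧ f (Function.update η i (η i - δ)) ≤ B)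
    (e : Fin m → ℝ) (he : ∀ i, |e i| ≤ δ / m) : f (η + e) ≤ B := by
  rcases Nat.eq_zero_or_pos m with hm | hm
  · subst hm
    have : η + e = η := Subsingleton.elim _ _
    rw [this]; exact hB0
  have hm' : (0 : ℝ) < m := by exact_mod_cast hm
  have hbx : ∀ i, ∀ t : ℝ, |t| ≤ δ → (Function.update η i (η i + t)) ∈
      {η : Fin m → ℝ | ∀ i, |η i| ≤ s} := by
    intro i t ht j
    by_cases h : j = i
    · subst h
      simp only [Function.update_self]
      exact (abs_add_le _ _).trans (by linarith [hη j])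
    · rw [Function.update_of_ne h]; linarith [hη j]
  -- one coordinate
  have hone : ∀ i, ∀ t : ℝ, |t| ≤ δ → f (Function.update η i (η i + t)) ≤ B := by
    intro i t ht
    rw [abs_le] at ht
    have hseg : Function.update η i (η i + t) ∈
        segment ℝ (Function.update η i (η i + δ)) (Function.update η i (η i - δ)) := by
      refine ⟨(δ + t) / (2 * δ), (δ - t) / (2 * δ), by apply div_nonneg <;> linarith,
        by apply div_nonneg <;> linarith, by field_simp; ring, ?_⟩
      funext j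
      by_cases h : j = i
      · subst h
        simp only [Function.update_self, Pi.add_apply, Pi.smul_apply, smul_eq_mul]
        field_simp
        ring
      · simp only [Function.update_of_ne h, Pi.add_apply, Pi.smul_apply, smul_eq_mul]
        field_simp
        ring
    have h1 := hbx i δ (by rw [abs_of_pos hδ])
    have h2 := hbx i (-δ) (by rw [abs_neg, abs_of_pos hδ])
    rw [← sub_eq_add_neg] at h2
    exact (hf.le_on_segment h1 h2 hseg).trans (max_le (hB i).1 (hB i).2)
  have hsum : η + e = ∑ i : Fin m, (1 / (m : ℝ)) • Function.update η i (η i + m * e i) := by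
    funext j
    simp only [Finset.sum_apply, Pi.smul_apply, Pi.add_apply, smul_eq_mul]
    have h1 : ∀ i : Fin m, 1 / (m : ℝ) * Function.update η i (η i + m * e i) j =
        1 / (m : ℝ) * η j + (if i = j then e j else 0) := by
      intro i
      by_cases h : i = j
      · subst h; simp only [Function.update_self, if_true]; field_simp
      · rw [Function.update_of_ne (Ne.symm h), if_neg h, add_zero]
    rw [Finset.sum_congr rfl (fun i _ => h1 i), Finset.sum_add_distrib]
    simp only [Finset.sum_const, Finset.card_univ, Fintype.card_fin, nsmul_eq_mul,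
      Finset.sum_ite_eq', Finset.mem_univ, if_true]
    field_simp
  rw [hsum]
  have hmem : ∀ i ∈ (Finset.univ : Finset (Fin m)), Function.update η i (η i + m * e i) ∈
      {η : Fin m → ℝ | ∀ i, |η i| ≤ s} := by
    intro i _
    apply hbx
    rw [abs_mul, abs_of_pos hm']
    calc (m : ℝ) * |e i| ≤ m * (δ / m) := by gcongr; exact he i
      _ = δ := by field_simp
  have hJ := hf.map_sum_le (t := Finset.univ) (w := fun _ : Fin m => 1 / (m : ℝ))
    (p := fun i => Function.update η i (η i + m * e i)) (fun i _ => by positivity)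
    (by simp only [Finset.sum_const, Finset.card_univ, Fintype.card_fin, nsmul_eq_mul]; field_simp)
    hmem
  refine hJ.trans ?_
  have h2 : ∀ i ∈ (Finset.univ : Finset (Fin m)),
      (1 / (m : ℝ)) • f (Function.update η i (η i + m * e i)) ≤ 1 / (m : ℝ) * B := by
    intro i _
    rw [smul_eq_mul]
    apply mul_le_mul_of_nonneg_left _ (by positivity)
    apply hone
    rw [abs_mul, abs_of_pos hm']
    calc (m : ℝ) * |e i| ≤ m * (δ / m) := by gcongr; exact he i
      _ = δ := by field_simp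
  refine (Finset.sum_le_sum h2).trans (le_of_eq ?_)
  simp only [Finset.sum_const, Finset.card_univ, Fintype.card_fin, nsmul_eq_mul]
  field_simp

/-- Block E of project PG: the pigeonhole (5) of note 3123, for the full box of tilts. -/
theorem pigeon_box (m : ℕ) {s C : ℝ} (hs : 0 < s) (hC : 1 ≤ C) :
    ∃ c K : ℝ, 0 < c ∧ c ≤ s / 2 ∧ 1 ≤ K ∧ ∀ k0 : ℕ, 1 ≤ k0 → ∀ f : ℕ → (Fin m → ℝ) → ℝ,
      (∀ k, k0 ≤ k + 1 → k < 2 * k0 → ConvexOn ℝ {η : Fin m → ℝ | ∀ i, |η i| ≤ s} (f k)) →
      (∀ k η, k0 ≤ k + 1 → k < 2 * k0 → (∀ i, |η i| ≤ s) →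
        Real.exp (-(C * k0)) ≤ f k η ∧ f k η ≤ Real.exp (C * k0)) →
      (∀ k η, k0 ≤ k + 1 → k + 1 < 2 * k0 → (∀ i, |η i| ≤ s) → f (k + 1) η ≤ f k η) →
      ∃ k, k0 ≤ k ∧ k < 2 * k0 ∧ ∃ η : Fin m → ℝ, (∀ i, |η i| ≤ s / 2) ∧
        ∀ e : Fin m → ℝ, (∀ i, |e i| ≤ c / k0) →
          f k (η + e) ≤ K * f k η ∧ f (k - 1) (η + e) ≤ K * f k η := by
  obtain ⟨c, K, hc, hcs, hK, hp⟩ := pigeon m hs hC
  have hm1 : (1 : ℝ) ≤ max (m : ℝ) 1 := le_max_right _ _
  refine ⟨c / max (m : ℝ) 1, max K (Real.exp 1), by positivity,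
    (div_le_self hc.le hm1).trans hcs, le_max_of_le_left hK, ?_⟩
  intro k0 hk0 f hconv hbd hmono
  obtain ⟨k, hk1, hk2, η, hη, h0, h1⟩ := hp k0 hk0 f hconv hbd hmono
  have hk0' : (1 : ℝ) ≤ k0 := by exact_mod_cast hk0
  have hk0pos : (0 : ℝ) < k0 := by linarith
  refine ⟨k, hk1, hk2, η, hη, ?_⟩
  intro e he
  have hδ : 0 < c / k0 := by positivity
  have hηs : ∀ i, |η i| + c / k0 ≤ s := by
    intro i
    have : c / k0 ≤ c := div_le_self hc.le hk0'
    linarith [hη i]
  have hηb : ∀ i, |η i| ≤ s := fun i => by linarith [hη i]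
  have hfpos : 0 ≤ f k η :=
    (Real.exp_pos _).le.trans (hbd k η (by omega) hk2 hηb).1
  have he' : ∀ i, |e i| ≤ c / k0 / m := by
    intro i
    have hm : 0 < m := Fin.pos i
    have hm' : (1 : ℝ) ≤ m := by exact_mod_cast hm
    have := he i
    rw [max_eq_left hm'] at this
    refine this.trans (le_of_eq ?_)
    rw [div_div, div_div, mul_comm]
  have hK1 : Real.exp 1 * f k η ≤ max K (Real.exp 1) * f k η :=
    mul_le_mul_of_nonneg_right (le_max_right _ _) hfpos
  have hK2 : K * f k η ≤ max K (Real.exp 1) * f k η :=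
    mul_le_mul_of_nonneg_right (le_max_left _ _) hfpos
  constructor
  · apply box_le hδ (hconv k (by omega) hk2) hηs _ _ e he'
    · have : 1 ≤ max K (Real.exp 1) := le_max_of_le_left hK
      nlinarith
    · intro i
      exact ⟨(h1 i).1.trans hK1, (h1 i).2.1.trans hK1⟩
  · apply box_le hδ (hconv (k - 1) (by omega) (by omega)) hηs _ _ e he'
    · exact h0.trans hK2
    · intro i
      exact ⟨(h1 i).2.2.1.trans hK2, (h1 i).2.2.2.trans hK2⟩

end Pool.Agent.Helper69.PG
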