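import Pool.Agent.Helper51.GP.S
import Pool.Agent.Helper51.GP.C3
import Pool.Agent.Helper69.PG.PigeonBox

/-!
# Block E of project GP (second edition): good pairs exist at all scales (helper69)
-/

set_option autoImplicit false

namespace Pool.Agent.Helper69.PG2

open MeasureTheory ProbabilityTheory Filter Pool.Agent.Helper79.GR Pool.Agent.Helper79.GQ
open Pool.Agent.Helper51.NP Pool.Agent.Helper51.GP
open Pool.Agent.Helper19.PG (DG Nr0)

variable {Ω : Type*} [MeasurableSpace Ω] {P : Measure Ω} {d : ℕ} {X : ℕ → Edge d → Ω → ℝ}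
  {ν : ℕ → Measure ℝ} {δ : ℕ → ℝ} {a K s : ℝ} {m C : ℕ} {u : F d → ℝ} {v : F d}
  {h : F d →L[ℝ] ℝ}

theorem vtx_mono {μ : F d → ℝ} {s' : ℝ} (hV : Vtx μ v h s) (h0 : 0 < s') (hs : s' ≤ s) :
    Vtx μ v h s' := by
  refine ⟨hV.hv, hV.one, h0, fun x => ?_⟩
  have h1 := hV.gap x
  have h2 : 0 ≤ tr v h x := Pool.Agent.Helper19.PG.tr_nonneg v h x
  nlinarith

theorem pi_norm_le' {η : Fin d → ℝ} {r : ℝ} (hr : 0 ≤ r) (hη : ∀ j, |η j| ≤ r) : ‖η‖ ≤ r := by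
  rw [pi_norm_le_iff_of_nonneg hr]
  intro i
  rw [Real.norm_eq_abs]
  exact hη i

/-- polynomials are small against `2 ^ (-L)` -/
theorem exists_scale (p : ℕ) {ε : ℝ} (hε : 0 < ε) :
    ∃ L₀ : ℕ, ∀ L : ℕ, L₀ ≤ L → (L : ℝ) ^ p * (1 / 2 : ℝ) ^ L ≤ ε := by
  have h1 := tendsto_pow_const_mul_const_pow_of_abs_lt_one p
    (show |(1 / 2 : ℝ)| < 1 by rw [abs_of_pos] <;> norm_num)
  have h2 := h1.eventually (gt_mem_nhds hε)
  obtain ⟨L₀, h3⟩ := eventually_atTop.1 h2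
  exact ⟨L₀, fun L hL => (h3 L hL).le⟩

/-- the transversal decay of the annealed weights -/
theorem z_le {X : Edge d → Ω → ℝ} {ν : Measure ℝ} {a b l δ : ℝ} (hE : Env P X ν a b)
    (hl : 0 < l) (hV : Vtx u v h s) (hδ0 : 0 ≤ δ) (hn : ∀ x, u x - δ * nr x ≤ nl P X l x)
    (hnu : ∀ x, nl P X l x ≤ u x) {τ E : ℝ} (hτ : 0 ≤ τ) (η : Fin d → ℝ)
    (hη : ‖η‖ + τ + δ ≤ s)
    (hD : ∀ η' : Fin d → ℝ, ‖η' - η‖ ≤ τ → DG (nl P X l) v h η' ≤ E) {E' τ' : ℝ}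
    (hC : E ≤ E') (hτ' : τ' ≤ τ) (q : V d) :
    Z P X l 0 q * Real.exp (l * gt v h η (rv q)) ≤
      Real.exp (l * (E' * max (h (rv q)) 0 - τ' * tr v h (rv q))) := by
  have h1 := Z_le_nl hE hl q
  have h2 := Pool.Agent.Helper19.PG.E2 (Pool.Agent.Helper19.PG.nr0_tc (subM_al hE hl)) hV hδ0
    hn hnu hτ hη hD (rv q)
  have h3 : max (h (rv q)) 0 * E ≤ E' * max (h (rv q)) 0 := by
    rw [mul_comm]
    exact mul_le_mul_of_nonneg_right hC (le_max_right _ _)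
  have h4 : τ' * tr v h (rv q) ≤ τ * tr v h (rv q) :=
    mul_le_mul_of_nonneg_right hτ' (Pool.Agent.Helper19.PG.tr_nonneg _ _ _)
  change gt v h η (rv q) - nl P X l (rv q) ≤ _ at h2
  calc Z P X l 0 q * Real.exp (l * gt v h η (rv q))
      ≤ Real.exp (-(l * nl P X l (rv q))) * Real.exp (l * gt v h η (rv q)) :=
        mul_le_mul_of_nonneg_right h1 (Real.exp_pos _).le
    _ = Real.exp (l * (gt v h η (rv q) - nl P X l (rv q))) := by
        rw [← Real.exp_add]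
        congr 1
        ring
    _ ≤ _ := by
        refine Real.exp_le_exp.2 (mul_le_mul_of_nonneg_left ?_ hl.le)
        linarith

theorem exists_pack (hF : Fam P X ν δ a m K u) (hV : Vtx u v h s) :
    ∃ C : ℕ, 1 ≤ C ∧ ∃ L₀ : ℕ, ∀ L : ℕ, L₀ ≤ L →
      ∃ (l D E : ℝ) (g : F d →L[ℝ] ℝ), Pack P X u v h C L (bb m L) l D E g := by
  have hnv : 0 ≤ nr v := Pool.Agent.Helper19.PG.nr_nonneg v
  have hd0 : (0 : ℝ) ≤ d := Nat.cast_nonneg d
  -- a smaller strength of the corner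
  obtain ⟨s₁, hs₁, hs₁s, hs₁1⟩ : ∃ s₁ : ℝ, 0 < s₁ ∧ s₁ ≤ s ∧ s₁ ≤ 1 :=
    ⟨min s 1, lt_min hV.spos one_pos, min_le_left _ _, min_le_right _ _⟩
  have hV₁ : Vtx u v h s₁ := vtx_mono hV hs₁ hs₁s
  clear hV hs₁s
  -- the constants
  obtain ⟨C₀, hC₀⟩ : ∃ C₀ : ℝ, C₀ = nr v + 1 + 2 * (2 * d + 2) := ⟨_, rfl⟩
  have hC₀1 : 1 ≤ C₀ := by rw [hC₀]; linarith
  obtain ⟨c, Kp, hc, hcs, hKp, hp⟩ := Pool.Agent.Helper69.PG.pigeon_box d (s := s₁ / 2) (C := C₀) (by positivity) hC₀1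
  obtain ⟨C₁, hC₁, L₁, hul⟩ := u_le_nl hF 3
  -- bound of the heights of the steps
  obtain ⟨H, hH⟩ : ∃ H : ℝ, H = ∑ σ : St d, (|h (rv (sv σ))| + tr v h (rv (sv σ))) := ⟨_, rfl⟩
  have hHs : ∀ σ : St d, |h (rv (sv σ))| + tr v h (rv (sv σ)) ≤ H := by
    intro σ
    rw [hH]
    exact Finset.single_le_sum (f := fun σ : St d => |h (rv (sv σ))| + tr v h (rv (sv σ)))
      (fun σ _ => add_nonneg (abs_nonneg _) (Pool.Agent.Helper19.PG.tr_nonneg _ _ _))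
      (Finset.mem_univ σ)
  obtain ⟨Cs, hCs, hslab⟩ := slab P d H
  obtain ⟨N, hN⟩ : ∃ N : ℕ, nr v + 1 ≤ (2 : ℝ) ^ N :=
    (pow_unbounded_of_one_lt (nr v + 1) (by norm_num : (1 : ℝ) < 2)).imp fun _ h => h.le
  obtain ⟨C, hCC₁, hCK, hCc, hCCs, hC1⟩ : ∃ C : ℕ, C₁ + N ≤ C ∧ Kp ≤ (C : ℝ) ∧
      1 / c ≤ (C : ℝ) ∧ 2 * Cs ≤ C ∧ 1 ≤ C := by
    obtain ⟨n1, h1⟩ := exists_nat_ge Kp
    obtain ⟨n2, h2⟩ := exists_nat_ge (1 / c)
    refine ⟨C₁ + N + n1 + n2 + 2 * Cs + 1, by omega, ?_, ?_, by omega, by omega⟩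
    · refine h1.trans ?_
      exact_mod_cast (by omega : n1 ≤ C₁ + N + n1 + n2 + 2 * Cs + 1)
    · refine h2.trans ?_
      exact_mod_cast (by omega : n2 ≤ C₁ + N + n1 + n2 + 2 * Cs + 1)
  have hC1' : (1 : ℝ) ≤ C := by exact_mod_cast hC1
  -- the scale
  obtain ⟨L₂, hL₂⟩ := exists_scale ((m + 1) * C₁) (ε := s₁ / 4) (by positivity)
  obtain ⟨L₃, hL₃⟩ := exists_scale (m + 1) (ε := 1 / 2) (by norm_num)
  refine ⟨C, hC1, L₁ + L₂ + L₃ + 2, fun L hL => ?_⟩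
  have hL1 : 1 ≤ L := by omega
  have hL1' : (1 : ℝ) ≤ L := by exact_mod_cast hL1
  have hL2' : (2 : ℝ) ≤ L := by exact_mod_cast (by omega : 2 ≤ L)
  obtain ⟨b, hb⟩ : ∃ b : ℕ, b = bb m L := ⟨_, rfl⟩
  rw [← hb]
  have hbL : (b : ℝ) = (L : ℝ) ^ (m + 1) := by
    rw [hb]
    unfold bb
    push_cast
    rfl
  have hb2 : (2 : ℝ) ≤ b := by
    rw [hbL]
    calc (2 : ℝ) ≤ L := hL2'
      _ = (L : ℝ) ^ 1 := (pow_one _).symm
      _ ≤ (L : ℝ) ^ (m + 1) := pow_le_pow_right₀ hL1' (by omega)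
  have hb1 : (1 : ℝ) ≤ b := by linarith
  have hb1' : 1 ≤ b := by exact_mod_cast hb1
  have hE := hF.env b hb1'
  have hpow : ∀ k : ℕ, (0 : ℝ) < (1 / 2 : ℝ) ^ k := fun k => by positivity
  have hpow1 : ∀ k : ℕ, (1 / 2 : ℝ) ^ k ≤ 1 := fun k =>
    pow_le_one₀ (by norm_num) (by norm_num)
  have hhalf : ∀ k : ℕ, L ≤ k + 1 → (1 / 2 : ℝ) ^ k ≤ 2 * (1 / 2) ^ L := by
    intro k hk'
    have h1 : (1 / 2 : ℝ) ^ k = 2 * (1 / 2) ^ (k + 1) := by rw [pow_succ]; ring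
    have h2 : (1 / 2 : ℝ) ^ (k + 1) ≤ (1 / 2) ^ L :=
      pow_le_pow_of_le_one (by norm_num) (by norm_num) hk'
    rw [h1]
    linarith
  have hδs : ∀ k : ℕ, L ≤ k + 1 → (b : ℝ) ^ C₁ * (1 / 2) ^ k ≤ s₁ / 2 := by
    intro k hk'
    have h1 := hL₂ L (by omega)
    have h2 : (b : ℝ) ^ C₁ = (L : ℝ) ^ ((m + 1) * C₁) := by rw [hbL, ← pow_mul]
    have h3 := mul_le_mul_of_nonneg_left (hhalf k hk') (pow_nonneg (by linarith : (0:ℝ) ≤ b) C₁)
    rw [h2] at h3 ⊢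
    linarith
  have hlb : ∀ k : ℕ, L ≤ k + 1 → (1 / 2 : ℝ) ^ k * b ≤ 1 := by
    intro k hk'
    have h1 := hL₃ L (by omega)
    have h3 := mul_le_mul_of_nonneg_right (hhalf k hk') (by linarith : (0 : ℝ) ≤ b)
    rw [hbL] at h3 ⊢
    linarith
  -- the annealed norms
  have hexp : ∀ k : ℕ, k ≤ 2 * L → Real.exp (-(((3 : ℕ) : ℝ) * L)) ≤ (1 / 2 : ℝ) ^ k := by
    intro k hk'
    have e0 : Real.exp (-3) ≤ 1 / 4 := by
      have e3 := Real.add_one_le_exp (3 : ℝ)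
      rw [Real.exp_neg, inv_le_comm₀ (Real.exp_pos _) (by norm_num)]
      norm_num at e3 ⊢
      exact e3
    calc Real.exp (-(((3 : ℕ) : ℝ) * L)) = Real.exp (-3) ^ L := by
          rw [← Real.exp_nat_mul]
          congr 1
          push_cast
          ring
      _ ≤ (1 / 4) ^ L := pow_le_pow_left₀ (Real.exp_pos _).le e0 L
      _ = (1 / 2) ^ (2 * L) := by
          rw [show (1 / 4 : ℝ) = (1 / 2) ^ 2 by norm_num, ← pow_mul]
      _ ≤ (1 / 2) ^ k := pow_le_pow_of_le_one (by norm_num) (by norm_num) hk'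
  have hsub : ∀ k : ℕ, L ≤ k + 1 → k ≤ 2 * L → ∀ x,
      u x - (b : ℝ) ^ C₁ * (1 / 2) ^ k * nr x ≤ nl P (X b) ((1 / 2) ^ k) x := by
    intro k h1 h2 x
    have h3 := hul L b (by omega) (by rw [hb]; exact le_rfl) ((1 / 2) ^ k) (hexp k h2) (by
      rw [mul_comm]
      exact (hδs k h1).trans (by linarith)) x
    linarith
  have hnu : ∀ k x, nl P (X b) ((1 / 2) ^ k) x ≤ u x := fun k x =>
    (nl_le_uu hE (hpow k) x).trans (hF.up b hb1' x)
  have hδ0 : ∀ k : ℕ, (0 : ℝ) ≤ (b : ℝ) ^ C₁ * (1 / 2) ^ k := fun k => by positivity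
  have hnorm : ∀ η : Fin d → ℝ, (∀ i, |η i| ≤ s₁ / 2) → ‖η‖ ≤ s₁ / 2 := fun η hη =>
    pi_norm_le' (by linarith) hη
  have hηk : ∀ k : ℕ, L ≤ k + 1 → ∀ η : Fin d → ℝ, (∀ i, |η i| ≤ s₁ / 2) →
      ‖η‖ + (b : ℝ) ^ C₁ * (1 / 2) ^ k ≤ s₁ := by
    intro k hk' η hη
    have h1 := hnorm η hη
    have h2 := hδs k hk'
    linarith
  have hDle : ∀ k : ℕ, L ≤ k + 1 → k ≤ 2 * L → ∀ η : Fin d → ℝ, (∀ i, |η i| ≤ s₁ / 2) →
      DG (nl P (X b) ((1 / 2) ^ k)) v h η ≤ (b : ℝ) ^ C₁ * (1 / 2) ^ k * nr v := fun k h1 h2 η hη =>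
    Pool.Agent.Helper19.PG.DG_le hV₁ (hδ0 k) (hsub k h1 h2) (hηk k h1 η hη)
  have hD0' : ∀ k : ℕ, L ≤ k + 1 → k ≤ 2 * L → ∀ η : Fin d → ℝ, (∀ i, |η i| ≤ s₁ / 2) →
      0 ≤ DG (nl P (X b) ((1 / 2) ^ k)) v h η := fun k h1 h2 η hη =>
    Pool.Agent.Helper19.PG.DG_nonneg hV₁ (hδ0 k) (hsub k h1 h2) (hnu k) (hηk k h1 η hη)
  obtain ⟨f, hf⟩ : ∃ f : ℕ → (Fin d → ℝ) → ℝ, f = fun k η =>
      DG (nl P (X b) ((1 / 2) ^ k)) v h η + ((1 / 2 : ℝ) ^ k) ^ (2 * d + 2) := ⟨_, rfl⟩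
  obtain ⟨k, hk1, hk2, η, hη, hbox⟩ := hp L hL1 f (by
      intro k h1 h2
      rw [hf]
      have h3 := Pool.Agent.Helper19.PG.DG_convexOn (r := s₁ / 2) hV₁ (hδ0 k)
        (hsub k h1 h2.le) (by linarith [hδs k h1])
      have e : {η : Fin d → ℝ | ∀ i, |η i| ≤ s₁ / 2} = {η : Fin d → ℝ | ‖η‖ ≤ s₁ / 2} := by
        ext η
        simp only [Set.mem_ofPred_eq]
        rw [pi_norm_le_iff_of_nonneg (half_pos hs₁).le]
        simp only [Real.norm_eq_abs]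
      rw [e]
      exact h3.add_const _) (by
      intro k η h1 h2 hη
      have hD0 := hD0' k h1 h2.le η hη
      have hD1 := hDle k h1 h2.le η hη
      have hq : ((1 / 2 : ℝ) ^ k) ^ (2 * d + 2) ≤ 1 := pow_le_one₀ (hpow k).le (hpow1 k)
      rw [hf]
      constructor
      · have e1 : Real.exp (-(C₀ * L)) ≤ ((1 / 2 : ℝ) ^ k) ^ (2 * d + 2) := by
          have e2 : Real.exp (-1) ≤ 1 / 2 := by
            have e3 := Real.add_one_le_exp (1 : ℝ)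
            rw [Real.exp_neg, inv_le_comm₀ (Real.exp_pos _) (by norm_num)]
            norm_num at e3 ⊢
            exact e3
          have e4 : Real.exp (-(C₀ * L)) ≤ Real.exp (-1) ^ (k * (2 * d + 2)) := by
            rw [← Real.exp_nat_mul]
            refine Real.exp_le_exp.2 ?_
            have e5 : (k : ℝ) ≤ 2 * L := by exact_mod_cast h2.le
            push_cast
            have e6 : (k : ℝ) * (2 * d + 2) ≤ 2 * L * (2 * d + 2) :=
              mul_le_mul_of_nonneg_right e5 (by linarith)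
            have e7 : 0 ≤ (nr v + 1) * L := by positivity
            rw [hC₀]
            nlinarith
          calc Real.exp (-(C₀ * L)) ≤ Real.exp (-1) ^ (k * (2 * d + 2)) := e4
            _ ≤ (1 / 2) ^ (k * (2 * d + 2)) := pow_le_pow_left₀ (Real.exp_pos _).le e2 _
            _ = _ := by rw [pow_mul]
        linarith
      · have e1 : (b : ℝ) ^ C₁ * (1 / 2) ^ k * nr v ≤ nr v :=
          mul_le_of_le_one_left hnv ((hδs k h1).trans (by linarith))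
        have e2 := Real.add_one_le_exp (C₀ * L)
        have e3 : C₀ ≤ C₀ * L := by nlinarith
        show DG (nl P (X b) ((1 / 2) ^ k)) v h η + ((1 / 2 : ℝ) ^ k) ^ (2 * d + 2) ≤ _
        rw [hC₀] at e3
        rw [hC₀] at e2 ⊢
        linarith) (by
      intro k η h1 h2 hη
      have e1 : (1 / 2 : ℝ) ^ (k + 1) ≤ (1 / 2) ^ k :=
        pow_le_pow_of_le_one (by norm_num) (by norm_num) (Nat.le_succ k)
      have e2 := Pool.Agent.Helper19.PG.DG_anti hV₁ (hδ0 k) (hsub k h1 (by omega))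
        (nl_anti hE (hpow (k + 1)) e1) (hηk k h1 η hη)
      have e3 : ((1 / 2 : ℝ) ^ (k + 1)) ^ (2 * d + 2) ≤ ((1 / 2 : ℝ) ^ k) ^ (2 * d + 2) :=
        pow_le_pow_left₀ (hpow (k + 1)).le e1 _
      rw [hf]
      exact add_le_add e2 e3)
  have hkL : L ≤ k + 1 := by omega
  have hηs : ∀ j, |η j| ≤ s₁ / 2 := fun j => by linarith [hη j]
  have hD0 := hD0' k hkL hk2.le η hηs
  have hD1 := hDle k hkL hk2.le η hηs
  have hfk : f k η = DG (nl P (X b) ((1 / 2) ^ k)) v h η +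
    ((1 / 2 : ℝ) ^ k) ^ (2 * d + 2) := by rw [hf]
  have hq0 : 0 < ((1 / 2 : ℝ) ^ k) ^ (2 * d + 2) := by positivity
  have hE0 : 0 ≤ f k η := by rw [hfk]; linarith
  have hcL : 0 < c / L := by positivity
  have hcL' : c / L ≤ s₁ / 4 := by
    have e1 : c / L ≤ c := div_le_self hc.le hL1'
    linarith
  have hη4 : ‖η‖ ≤ s₁ / 4 := pi_norm_le' (by linarith) fun j => by linarith [hη j]
  have hηδ : ∀ k : ℕ, L ≤ k + 1 → ‖η‖ + c / L + (b : ℝ) ^ C₁ * (1 / 2) ^ k ≤ s₁ := by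
    intro k hk'
    have h2 := hδs k hk'
    linarith
  have hδ' : 1 / ((C : ℝ) * L) ≤ c / L := by
    rw [← div_div]
    refine div_le_div_of_nonneg_right ?_ (by linarith)
    rw [div_le_iff₀ (by linarith)]
    rw [div_le_iff₀ hc] at hCc
    linarith
  have hKE : Kp * f k η ≤ C * f k η := mul_le_mul_of_nonneg_right hCK hE0
  have h2k : 2 * (1 / 2 : ℝ) ^ k = (1 / 2) ^ (k - 1) := by
    obtain ⟨j, rfl⟩ : ∃ j, k = j + 1 := ⟨k - 1, by omega⟩
    rw [Nat.add_sub_cancel, pow_succ]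
    ring
  have hgh : ∀ x, |gt v h η x - h x| ≤ s₁ * tr v h x := by
    intro x
    refine (Pool.Agent.Helper19.PG.gt_sub_le v h η x).trans ?_
    exact mul_le_mul_of_nonneg_right (by linarith) (Pool.Agent.Helper19.PG.tr_nonneg _ _ _)
  have hlk : (0 : ℝ) < (1 / 2) ^ k := hpow k
  refine ⟨(1 / 2) ^ k, DG (nl P (X b) ((1 / 2) ^ k)) v h η, f k η, gt v h η,
    { lpos := hpow k
      lup := pow_le_pow_of_le_one (by norm_num) (by norm_num) hk1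
      llo := ?_
      D0 := hD0
      DE := hfk
      EC := ?_
      gle := ?_
      gh := ?_
      z1 := ?_
      z2 := ?_
      low := ?_ }⟩
  · rw [show (1 / 4 : ℝ) = (1 / 2) ^ 2 by norm_num, ← pow_mul]
    exact pow_le_pow_of_le_one (by norm_num) (by norm_num) hk2.le
  · rw [hfk]
    have e1 : ((1 / 2 : ℝ) ^ k) ^ (2 * d + 2) ≤ (1 / 2 : ℝ) ^ k := by
      conv_rhs => rw [← pow_one ((1 / 2 : ℝ) ^ k)]
      exact pow_le_pow_of_le_one (hpow k).le (hpow1 k) (by omega)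
    have e2 : (b : ℝ) ^ C₁ * nr v + 1 ≤ (b : ℝ) ^ C := by
      have e3 : (1 : ℝ) ≤ (b : ℝ) ^ C₁ := one_le_pow₀ hb1
      have e4 : (2 : ℝ) ^ N ≤ (b : ℝ) ^ N := pow_le_pow_left₀ (by norm_num) hb2 N
      calc (b : ℝ) ^ C₁ * nr v + 1 ≤ (b : ℝ) ^ C₁ * nr v + (b : ℝ) ^ C₁ := by linarith
        _ = (b : ℝ) ^ C₁ * (nr v + 1) := by ring
        _ ≤ (b : ℝ) ^ C₁ * (b : ℝ) ^ N :=
            mul_le_mul_of_nonneg_left (hN.trans e4) (by linarith)
        _ = (b : ℝ) ^ (C₁ + N) := (pow_add _ _ _).symm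
        _ ≤ (b : ℝ) ^ C := pow_le_pow_right₀ hb1 hCC₁
    calc DG (nl P (X b) ((1 / 2) ^ k)) v h η + ((1 / 2 : ℝ) ^ k) ^ (2 * d + 2)
        ≤ (b : ℝ) ^ C₁ * (1 / 2) ^ k * nr v + (1 / 2 : ℝ) ^ k := add_le_add hD1 e1
      _ = ((b : ℝ) ^ C₁ * nr v + 1) * (1 / 2) ^ k := by ring
      _ ≤ (b : ℝ) ^ C * (1 / 2) ^ k := mul_le_mul_of_nonneg_right e2 hlk.le
  · intro x
    have h1 := (le_abs_self _).trans (hgh x)
    have h2 := hV₁.gap x
    linarith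
  · intro x
    refine (hgh x).trans ?_
    exact mul_le_mul_of_nonneg_right (by linarith) (Pool.Agent.Helper19.PG.tr_nonneg _ _ _)
  · intro q
    have e1 := z_le hE (hpow k) hV₁ (hδ0 k) (hsub k hkL hk2.le) (hnu k) hcL.le η
      (hηδ k hkL) (E := Kp * f k η) (fun η' he => by
      have e2 := (hbox (η' - η) fun j => by
        rw [← Real.norm_eq_abs]
        exact (norm_le_pi_norm (η' - η) j).trans he).1
      rw [add_sub_cancel] at e2
      have e3 : f k η' = DG (nl P (X b) ((1 / 2) ^ k)) v h η' +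
        ((1 / 2 : ℝ) ^ k) ^ (2 * d + 2) := by rw [hf]
      linarith) hKE hδ' q
    rw [show tr v h (rv q) / ((C : ℝ) * L) = 1 / ((C : ℝ) * L) * tr v h (rv q) by ring]
    exact e1
  · intro q
    have hkL1 : L ≤ (k - 1) + 1 := by omega
    have e1 := z_le hE (hpow (k - 1)) hV₁ (hδ0 (k - 1)) (hsub (k - 1) hkL1 (by omega))
      (hnu (k - 1)) hcL.le η (hηδ (k - 1) hkL1) (E := Kp * f k η) (fun η' he => by
      have e2 := (hbox (η' - η) fun j => by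
        rw [← Real.norm_eq_abs]
        exact (norm_le_pi_norm (η' - η) j).trans he).2
      rw [add_sub_cancel] at e2
      have e3 : f (k - 1) η' = DG (nl P (X b) ((1 / 2) ^ (k - 1))) v h η' +
        ((1 / 2 : ℝ) ^ (k - 1)) ^ (2 * d + 2) := by rw [hf]
      have e4 : 0 < ((1 / 2 : ℝ) ^ (k - 1)) ^ (2 * d + 2) := by positivity
      linarith) hKE hδ' q
    rw [show tr v h (rv q) / ((C : ℝ) * L) = 1 / ((C : ℝ) * L) * tr v h (rv q) by ring, h2k]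
    exact e1
  · intro n hn
    have hwd : (wd ((1 / 2) ^ k) b : ℝ) ≤ 2 / (1 / 2) ^ k := by
      unfold wd
      have e1 : 0 < (1 / 2 : ℝ) ^ k * b := by positivity
      refine (Nat.ceil_lt_add_one (by positivity)).le.trans ?_
      have e2 : 1 / ((1 / 2 : ℝ) ^ k * b) ≤ 1 / (1 / 2) ^ k :=
        one_div_le_one_div_of_le hlk (le_mul_of_one_le_right hlk.le hb1)
      have e3 : (1 : ℝ) ≤ 1 / (1 / 2) ^ k := by
        rw [le_div_iff₀ hlk, one_mul]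
        exact hpow1 k
      have e4 : (2 : ℝ) / (1 / 2) ^ k = 1 / (1 / 2) ^ k + 1 / (1 / 2) ^ k := by ring
      linarith
    have hCs' : 2 * (Cs : ℝ) ≤ C := by exact_mod_cast hCCs
    have hCs0 : (0 : ℝ) ≤ Cs := Nat.cast_nonneg Cs
    have hn' : (Cs : ℝ) * wd ((1 / 2) ^ k) b ≤ n := by
      refine le_trans ?_ hn
      calc (Cs : ℝ) * wd ((1 / 2) ^ k) b ≤ Cs * (2 / (1 / 2) ^ k) :=
            mul_le_mul_of_nonneg_left hwd hCs0
        _ = 2 * Cs / (1 / 2) ^ k := by ring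
        _ ≤ C / (1 / 2) ^ k := div_le_div_of_nonneg_right hCs' hlk.le
    have hwd0 : (0 : ℝ) ≤ wd ((1 / 2) ^ k) b := Nat.cast_nonneg _
    have e0 : (Cs : ℝ) * wd ((1 / 2) ^ k) b ≤ C * wd ((1 / 2) ^ k) b :=
      mul_le_mul_of_nonneg_right (by linarith) hwd0
    have hn0 : 0 ≤ n := (by positivity : (0 : ℝ) ≤ Cs * wd ((1 / 2) ^ k) b).trans hn'
    have hmain : ∀ D' : ℝ, D' < DG (nl P (X b) ((1 / 2) ^ k)) v h η →
        ENNReal.ofReal (Real.exp ((1 / 2) ^ k * n * D')) ≤ ENNReal.ofReal C *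
        ∑' q : {q : V d // |h (rv (wd ((1 / 2) ^ k) b • q)) - n| ≤ C * wd ((1 / 2) ^ k) b},
          ENNReal.ofReal (Z P (X b) ((1 / 2) ^ k) 0 (wd ((1 / 2) ^ k) b • q.1) *
            Real.exp ((1 / 2) ^ k * gt v h η (rv (wd ((1 / 2) ^ k) b • q.1)))) := by
      intro D' hD'
      obtain ⟨t, ⟨x, hx, rfl⟩, h2⟩ := exists_lt_of_lt_csSup
        (Pool.Agent.Helper19.PG.DG_nonempty (n := nl P (X b) ((1 / 2) ^ k)) hV₁.hv η) hD'
      have e1 := hslab (X b) (ν b) (δ b) b hE hb1' ((1 / 2) ^ k) h (gt v h η) x (hpow k)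
        (hlb k hkL) (fun σ => by
          have h3 := hHs σ
          have h4 : 0 ≤ tr v h (rv (sv σ)) := Pool.Agent.Helper19.PG.tr_nonneg _ _ _
          linarith) hx n hn'
      have e2 : ENNReal.ofReal (Real.exp ((1 / 2) ^ k * n * D')) ≤
          ENNReal.ofReal (Real.exp ((1 / 2) ^ k * n *
            (gt v h η x - nl P (X b) ((1 / 2) ^ k) x))) :=
        ENNReal.ofReal_le_ofReal (Real.exp_le_exp.2
          (mul_le_mul_of_nonneg_left h2.le (mul_nonneg hlk.le hn0)))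
      refine (e2.trans e1).trans (mul_le_mul' (ENNReal.ofReal_le_ofReal (by linarith)) ?_)
      exact ENNReal.tsum_comp_le_tsum_of_injective
        (f := fun q : {q : V d // |h (rv (wd ((1 / 2) ^ k) b • q)) - n| ≤
            Cs * wd ((1 / 2) ^ k) b} => (⟨q.1, q.2.trans e0⟩ :
            {q : V d // |h (rv (wd ((1 / 2) ^ k) b • q)) - n| ≤ C * wd ((1 / 2) ^ k) b}))
        (fun q₁ q₂ h12 => Subtype.ext (congrArg (fun z => z.1) h12))
        (fun q => ENNReal.ofReal (Z P (X b) ((1 / 2) ^ k) 0 (wd ((1 / 2) ^ k) b • q.1) *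
          Real.exp ((1 / 2) ^ k * gt v h η (rv (wd ((1 / 2) ^ k) b • q.1)))))
    have hcont : Tendsto (fun D' : ℝ => ENNReal.ofReal (Real.exp ((1 / 2) ^ k * n * D')))
        (nhdsWithin (DG (nl P (X b) ((1 / 2) ^ k)) v h η)
          (Set.Iio (DG (nl P (X b) ((1 / 2) ^ k)) v h η)))
        (nhds (ENNReal.ofReal (Real.exp ((1 / 2) ^ k * n *
          DG (nl P (X b) ((1 / 2) ^ k)) v h η)))) := by
      refine tendsto_nhdsWithin_of_tendsto_nhds ?_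
      refine (ENNReal.continuous_ofReal.tendsto _).comp ?_
      exact (by fun_prop : Continuous fun D' : ℝ => Real.exp ((1 / 2) ^ k * n * D')).tendsto _
    refine le_of_tendsto hcont ?_
    filter_upwards [self_mem_nhdsWithin] with D' h1
    exact hmain D' h1

end Pool.Agent.Helper69.PG2
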