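import Pool.Agent.Helper51.NP.D
import Pool.Agent.Helper51.NP.C3
import Pool.Agent.Helper69.PG.PigeonBox

/-!
# Block E of project PG: good pairs (inverse temperature, tilt) exist at all scales (helper69)
-/

set_option autoImplicit false

namespace Pool.Agent.Helper69.PG

open MeasureTheory ProbabilityTheory Filter Pool.Agent.Helper79.GR Pool.Agent.Helper79.GQ
open Pool.Agent.Helper51.NP

variable {Ω : Type*} [MeasurableSpace Ω] {P : Measure Ω} {d : ℕ} {X : Edge d → Ω → ℝ}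
  {ν : Measure ℝ} {a b l s : ℝ} {v : F d} {h : F d →L[ℝ] ℝ}

theorem vtx_mono {μ : F d → ℝ} {s' : ℝ} (hV : Vtx μ v h s) (h0 : 0 < s') (hs : s' ≤ s) :
    Vtx μ v h s' := by
  refine ⟨hV.hv, hV.one, h0, fun x => ?_⟩
  have h1 := hV.gap x
  have h2 : 0 ≤ tr v h x := Helper51.NP.tr_nonneg x
  nlinarith

theorem b_pos (hE : Env P X ν a b) (hV : Vtx (uu P X) v h s) : 0 < b := by
  have h1 := uu_le hE v
  rw [hV.one] at h1
  have h2 := Pool.Agent.Helper19.PG.nr_nonneg v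
  by_contra hb
  push Not at hb
  nlinarith

theorem hk_nonneg (hE : Env P X ν a b) (hV : Vtx (uu P X) v h s) : 0 ≤ hk a b b := by
  have h1 := b_pos hE hV
  have h2 := hE.apos
  unfold hk
  positivity

theorem sub_nl (hE : Env P X ν a b) (hl : 0 < l) (x : F d) :
    uu P X x - hk a b b * l * nr x ≤ nl P X l x := by
  have h1 := uu_le_nl hE hl x
  linarith

theorem pi_norm_le' {η : Fin d → ℝ} {r : ℝ} (hr : 0 ≤ r) (hη : ∀ j, |η j| ≤ r) : ‖η‖ ≤ r := by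
  rw [pi_norm_le_iff_of_nonneg hr]
  intro i
  rw [Real.norm_eq_abs]
  exact hη i

/-- `Dl` is nondecreasing in `l` -/
theorem Dl_mono (hE : Env P X ν a b) (hV : Vtx (uu P X) v h s) {l l' : ℝ} (hl : 0 < l)
    (hll : l ≤ l') (hls : 2 * hk a b b * l' ≤ s / 2) (η : Fin d → ℝ) (hη : ∀ j, |η j| ≤ s / 2) :
    Dl P X l v h η ≤ Dl P X l' v h η := by
  have hl' : 0 < l' := hl.trans_le hll
  have h1 := pi_norm_le' (half_pos hV.spos).le hη
  have h2 := hk_nonneg hE hV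
  have h3 := hV.spos
  exact Pool.Agent.Helper19.PG.DG_anti hV (mul_nonneg h2 hl'.le) (sub_nl hE hl')
    (nl_anti hE hl hll) (by nlinarith)

/-- `Dl` is convex in the tilt -/
theorem Dl_convexOn (hE : Env P X ν a b) (hV : Vtx (uu P X) v h s) (hl : 0 < l)
    (hls : 2 * hk a b b * l ≤ s / 2) :
    ConvexOn ℝ {η : Fin d → ℝ | ∀ i, |η i| ≤ s / 2} (Dl P X l v h) := by
  have h2 := hk_nonneg hE hV
  have h3 := hV.spos
  have h1 := Pool.Agent.Helper19.PG.DG_convexOn (r := s / 2) hV (mul_nonneg h2 hl.le)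
    (sub_nl hE hl) (by nlinarith)
  have e : {η : Fin d → ℝ | ∀ i, |η i| ≤ s / 2} = {η : Fin d → ℝ | ‖η‖ ≤ s / 2} := by
    ext η
    simp only [Set.mem_ofPred_eq]
    rw [pi_norm_le_iff_of_nonneg (half_pos h3).le]
    simp only [Real.norm_eq_abs]
  rw [e]
  exact h1

/-- for all `x`, also of negative height -/
theorem gt_sub_nl_le' (hE : Env P X ν a b) (hl : 0 < l) (hV : Vtx (uu P X) v h s)
    (hls : 2 * hk a b b * l ≤ s / 2) (η : Fin d → ℝ) (hη : ∀ j, |η j| ≤ s / 2) (x : F d) :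
    gt v h η x - nl P X l x ≤ Dl P X l v h η * max (h x) 0 := by
  have h0 := pi_norm_le' (half_pos hV.spos).le hη
  have h2 := hk_nonneg hE hV
  have h3 := hV.spos
  have h1 := Pool.Agent.Helper19.PG.gt_sub_le_DG
    (Pool.Agent.Helper19.PG.nr0_tc (subM_al hE hl)) hV (mul_nonneg h2 hl.le)
    (sub_nl hE hl) (nl_le_uu hE hl) (η := η) (by nlinarith) x
  rw [mul_comm]
  exact h1

/-- the transversal decay of the annealed weights -/
theorem z_le (hE : Env P X ν a b) (hl : 0 < l) (hV : Vtx (uu P X) v h s)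
    (hls : 2 * hk a b b * l ≤ s / 2) {δ E : ℝ} (hδ : 0 < δ) (hE0 : 0 ≤ E) (η : Fin d → ℝ)
    (hη : ∀ j, |η j| + δ ≤ s / 2)
    (hD : ∀ e : Fin d → ℝ, (∀ j, |e j| ≤ δ) → Dl P X l v h (η + e) ≤ E) {C' E' δ' : ℝ}
    (hC : E ≤ E') (hδ' : δ' ≤ δ) (q : V d) (hC' : E' = C') :
    Z P X l 0 q * Real.exp (l * gt v h η (rv q)) ≤
      Real.exp (l * (C' * max (h (rv q)) 0 - δ' * tr v h (rv q))) := by
  subst hC'
  have h1 := Z_le_nl hE hl q
  have h2 := E2 hE hl hV hls hδ hE0 η hη hD (rv q)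
  have h3 : E * max (h (rv q)) 0 ≤ E' * max (h (rv q)) 0 :=
    mul_le_mul_of_nonneg_right hC (le_max_right _ _)
  have h4 : δ' * tr v h (rv q) ≤ δ * tr v h (rv q) :=
    mul_le_mul_of_nonneg_right hδ' (Helper51.NP.tr_nonneg _)
  calc Z P X l 0 q * Real.exp (l * gt v h η (rv q))
      ≤ Real.exp (-(l * nl P X l (rv q))) * Real.exp (l * gt v h η (rv q)) :=
        mul_le_mul_of_nonneg_right h1 (Real.exp_pos _).le
    _ = Real.exp (l * (gt v h η (rv q) - nl P X l (rv q))) := by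
        rw [← Real.exp_add]
        congr 1
        ring
    _ ≤ _ := by
        refine Real.exp_le_exp.2 (mul_le_mul_of_nonneg_left ?_ hl.le)
        linarith

theorem exists_pack (hE : Env P X ν a b) (hV : Vtx (uu P X) v h s) :
    ∃ C : ℝ, 1 ≤ C ∧ ∃ L₀ : ℕ, ∀ L : ℕ, L₀ ≤ L →
      ∃ (l D E : ℝ) (g : F d →L[ℝ] ℝ), Pack P X v h C L l D E g := by
  have ha := hE.apos
  have hb := b_pos hE hV
  have hk0 := hk_nonneg hE hV
  have hnv : 0 ≤ nr v := Pool.Agent.Helper19.PG.nr_nonneg v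
  have hhn : 0 ≤ ‖h‖ * nr v := mul_nonneg (norm_nonneg h) hnv
  -- a smaller strength of the corner
  obtain ⟨s₁, hs₁, hs₁s, hs₁a, hs₁1⟩ : ∃ s₁ : ℝ, 0 < s₁ ∧ s₁ ≤ s ∧
      s₁ * (1 + ‖h‖ * nr v) ≤ a ∧ s₁ ≤ 1 := by
    refine ⟨min s (min (a / (1 + ‖h‖ * nr v)) 1), lt_min hV.spos (lt_min (by positivity)
      one_pos), min_le_left _ _, ?_, (min_le_right _ _).trans (min_le_right _ _)⟩
    calc min s (min (a / (1 + ‖h‖ * nr v)) 1) * (1 + ‖h‖ * nr v)
        ≤ a / (1 + ‖h‖ * nr v) * (1 + ‖h‖ * nr v) :=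
          mul_le_mul_of_nonneg_right ((min_le_right _ _).trans (min_le_left _ _)) (by positivity)
      _ = a := div_mul_cancel₀ _ (by positivity)
  have hV₁ : Vtx (uu P X) v h s₁ := vtx_mono hV hs₁ hs₁s
  clear hV hs₁s
  -- the constants
  obtain ⟨C₀, hC₀⟩ : ∃ C₀ : ℝ, C₀ = hk a b b * nr v + 1 + 2 * (2 * d + 2) := ⟨_, rfl⟩
  have hknv : 0 ≤ hk a b b * nr v := mul_nonneg hk0 hnv
  have hd0 : (0 : ℝ) ≤ d := Nat.cast_nonneg d
  have hC₀1 : 1 ≤ C₀ := by rw [hC₀]; linarith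
  obtain ⟨c, K, hc, hcs, hK, hp⟩ := pigeon_box d (s := s₁ / 2) (C := C₀) (by positivity) hC₀1
  obtain ⟨Cs, hCs, hslab⟩ := slab hE h (hk a b b * nr v)
  obtain ⟨C, hC1, hCK, hCc, hCCs, hCk, hCs1⟩ : ∃ C : ℝ, 1 ≤ C ∧ K ≤ C ∧ 1 / c ≤ C ∧ Cs ≤ C ∧
      hk a b b * nr v + 1 ≤ C ∧ s₁ ≤ C := by
    have e1 : 0 ≤ 1 / c := by positivity
    refine ⟨1 + K + 1 / c + Cs + (hk a b b * nr v + 1) + s₁, ?_, ?_, ?_, ?_, ?_, ?_⟩ <;> linarith
  -- the scale
  obtain ⟨L₀, hL₀⟩ : ∃ L₀ : ℕ, 2 * hk a b b * (2 * (1 / 2) ^ L₀) ≤ s₁ / 2 := by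
    obtain ⟨n, hn⟩ := exists_pow_lt_of_lt_one
      (show (0 : ℝ) < s₁ / 2 / (4 * hk a b b + 1) by positivity) (show (1 / 2 : ℝ) < 1 by norm_num)
    refine ⟨n, ?_⟩
    have h1 : (1 / 2 : ℝ) ^ n * (4 * hk a b b + 1) ≤ s₁ / 2 := by
      rw [lt_div_iff₀ (by positivity)] at hn
      exact hn.le
    have h2 : (0 : ℝ) ≤ (1 / 2 : ℝ) ^ n := by positivity
    nlinarith
  refine ⟨C, hC1, max L₀ 1, fun L hL => ?_⟩
  have hL1 : 1 ≤ L := (le_max_right _ _).trans hL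
  have hLL : L₀ ≤ L := (le_max_left _ _).trans hL
  have hL1' : (1 : ℝ) ≤ L := by exact_mod_cast hL1
  have hpow : ∀ k : ℕ, (0 : ℝ) < (1 / 2 : ℝ) ^ k := fun k => by positivity
  have hpow1 : ∀ k : ℕ, (1 / 2 : ℝ) ^ k ≤ 1 := fun k =>
    pow_le_one₀ (by norm_num) (by norm_num)
  have hls : ∀ k : ℕ, L ≤ k + 1 → 2 * hk a b b * (1 / 2) ^ k ≤ s₁ / 2 := by
    intro k hk'
    have h1 : (1 / 2 : ℝ) ^ k = 2 * (1 / 2) ^ (k + 1) := by rw [pow_succ]; ring
    have h2 : (1 / 2 : ℝ) ^ (k + 1) ≤ (1 / 2) ^ L₀ :=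
      pow_le_pow_of_le_one (by norm_num) (by norm_num) (hLL.trans hk')
    rw [h1]
    have h3 : 2 * hk a b b * (2 * (1 / 2) ^ (k + 1)) ≤ 2 * hk a b b * (2 * (1 / 2) ^ L₀) :=
      mul_le_mul_of_nonneg_left (by linarith) (by linarith)
    exact h3.trans hL₀
  obtain ⟨f, hf⟩ : ∃ f : ℕ → (Fin d → ℝ) → ℝ, f = fun k η =>
      Dl P X ((1 / 2) ^ k) v h η + ((1 / 2 : ℝ) ^ k) ^ (2 * d + 2) := ⟨_, rfl⟩
  obtain ⟨k, hk1, hk2, η, hη, hbox⟩ := hp L hL1 f (by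
      intro k h1 h2
      rw [hf]
      exact (Dl_convexOn hE hV₁ (hpow k) (hls k h1)).add_const _) (by
      intro k η h1 h2 hη
      have hD0 := Dl_nonneg hE (hpow k) hV₁ (hls k h1) η hη
      have hD1 := Dl_le hE (hpow k) hV₁ (hls k h1) η hη
      have hq : ((1 / 2 : ℝ) ^ k) ^ (2 * d + 2) ≤ 1 := pow_le_one₀ (hpow k).le (hpow1 k)
      rw [hf]
      constructor
      · have e1 : Real.exp (-(C₀ * L)) ≤ ((1 / 2 : ℝ) ^ k) ^ (2 * d + 2) := by
          have e2 : Real.exp (-1) ≤ 1 / 2 := by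
            have e3 := Real.add_one_le_exp (1 : ℝ)
            rw [Real.exp_neg, inv_le_comm₀ (Real.exp_pos _) (by norm_num)]
            norm_num at e3 ⊢
            exact e3
          have e4 : Real.exp (-(C₀ * L)) ≤ Real.exp (-1) ^ (k * (2 * d + 2)) := by
            rw [← Real.exp_nat_mul]
            refine Real.exp_le_exp.2 ?_
            have e5 : (k : ℝ) ≤ 2 * L := by exact_mod_cast h2.le
            push_cast
            have e6 : (k : ℝ) * (2 * d + 2) ≤ 2 * L * (2 * d + 2) :=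
              mul_le_mul_of_nonneg_right e5 (by linarith)
            have e7 : 0 ≤ (hk a b b * nr v + 1) * L := by positivity
            rw [hC₀]
            nlinarith
          calc Real.exp (-(C₀ * L)) ≤ Real.exp (-1) ^ (k * (2 * d + 2)) := e4
            _ ≤ (1 / 2) ^ (k * (2 * d + 2)) := pow_le_pow_left₀ (Real.exp_pos _).le e2 _
            _ = _ := by rw [pow_mul]
        linarith
      · have e1 : hk a b b * nr v * (1 / 2) ^ k ≤ hk a b b * nr v :=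
          mul_le_of_le_one_right hknv (hpow1 k)
        have e2 := Real.add_one_le_exp (C₀ * L)
        have e3 : C₀ ≤ C₀ * L := by nlinarith
        show Dl P X ((1 / 2) ^ k) v h η + ((1 / 2 : ℝ) ^ k) ^ (2 * d + 2) ≤ _
        rw [hC₀] at e3
        rw [hC₀] at e2 ⊢
        linarith) (by
      intro k η h1 h2 hη
      have e1 : (1 / 2 : ℝ) ^ (k + 1) ≤ (1 / 2) ^ k :=
        pow_le_pow_of_le_one (by norm_num) (by norm_num) (Nat.le_succ k)
      have e2 := Dl_mono hE hV₁ (hpow (k + 1)) e1 (hls k h1) η hη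
      have e3 : ((1 / 2 : ℝ) ^ (k + 1)) ^ (2 * d + 2) ≤ ((1 / 2 : ℝ) ^ k) ^ (2 * d + 2) :=
        pow_le_pow_left₀ (hpow (k + 1)).le e1 _
      rw [hf]
      exact add_le_add e2 e3)
  have hkL : L ≤ k + 1 := by omega
  have hlk := hls k hkL
  have hηs : ∀ j, |η j| ≤ s₁ / 2 := fun j => by linarith [hη j]
  have hη1 : ∀ j, |η j| ≤ s₁ := fun j => by linarith [hη j]
  have hD0 := Dl_nonneg hE (hpow k) hV₁ hlk η hηs
  have hD1 := Dl_le hE (hpow k) hV₁ hlk η hηs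
  have hfk : f k η = Dl P X ((1 / 2) ^ k) v h η + ((1 / 2 : ℝ) ^ k) ^ (2 * d + 2) := by rw [hf]
  have hq0 : 0 < ((1 / 2 : ℝ) ^ k) ^ (2 * d + 2) := by positivity
  have hE0 : 0 ≤ f k η := by rw [hfk]; linarith
  have hcL : 0 < c / L := by positivity
  have hcL' : c / L ≤ s₁ / 4 := by
    have e1 : c / L ≤ c := div_le_self hc.le hL1'
    linarith
  have hηδ : ∀ j, |η j| + c / L ≤ s₁ / 2 := fun j => by linarith [hη j]
  have hδ' : 1 / (C * L) ≤ c / L := by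
    rw [← div_div]
    refine div_le_div_of_nonneg_right ?_ (by linarith)
    rw [div_le_iff₀ (by linarith)]
    rw [div_le_iff₀ hc] at hCc
    linarith
  have hKE : K * f k η ≤ C * f k η := mul_le_mul_of_nonneg_right hCK hE0
  have h2k : 2 * (1 / 2 : ℝ) ^ k = (1 / 2) ^ (k - 1) := by
    obtain ⟨j, rfl⟩ : ∃ j, k = j + 1 := ⟨k - 1, by omega⟩
    rw [Nat.add_sub_cancel, pow_succ]
    ring
  have hgn : ∀ y, |gt v h η y - h y| ≤ a / 2 * nr y := by
    intro y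
    have e1 := Helper51.NP.abs_gt_sub_le (v := v) (h := h) η hηs y
    have e2 := Helper51.NP.tr_le_nr (v := v) (h := h) y
    have e3 := Pool.Agent.Helper19.PG.nr_nonneg y
    calc |gt v h η y - h y| ≤ s₁ / 2 * tr v h y := e1
      _ ≤ s₁ / 2 * ((1 + ‖h‖ * nr v) * nr y) := mul_le_mul_of_nonneg_left e2 (by linarith)
      _ = s₁ * (1 + ‖h‖ * nr v) / 2 * nr y := by ring
      _ ≤ a / 2 * nr y := mul_le_mul_of_nonneg_right (by linarith) e3
  refine ⟨(1 / 2) ^ k, Dl P X ((1 / 2) ^ k) v h η, f k η, gt v h η,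
    { lpos := hpow k
      lup := pow_le_pow_of_le_one (by norm_num) (by norm_num) hk1
      llo := ?_
      D0 := hD0
      DE := hfk
      EC := ?_
      gle := Helper51.NP.gt_le hV₁ η hη1
      gh := ?_
      z1 := ?_
      z2 := ?_
      low := ?_ }⟩
  · rw [show (1 / 4 : ℝ) = (1 / 2) ^ 2 by norm_num, ← pow_mul]
    exact pow_le_pow_of_le_one (by norm_num) (by norm_num) hk2.le
  · rw [hfk]
    have e1 : ((1 / 2 : ℝ) ^ k) ^ (2 * d + 2) ≤ (1 / 2 : ℝ) ^ k := by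
      conv_rhs => rw [← pow_one ((1 / 2 : ℝ) ^ k)]
      exact pow_le_pow_of_le_one (hpow k).le (hpow1 k) (by omega)
    have e2 : (hk a b b * nr v + 1) * (1 / 2) ^ k ≤ C * (1 / 2) ^ k :=
      mul_le_mul_of_nonneg_right hCk (hpow k).le
    linarith
  · intro x
    refine (Helper51.NP.abs_gt_sub_le η hη1 x).trans ?_
    exact mul_le_mul_of_nonneg_right hCs1 (Helper51.NP.tr_nonneg x)
  · intro q
    have e1 := z_le hE (hpow k) hV₁ hlk hcL (mul_nonneg (by linarith) hE0) η hηδ (fun e he => by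
      have e2 := (hbox e he).1
      have e3 : f k (η + e) = Dl P X ((1 / 2) ^ k) v h (η + e) +
        ((1 / 2 : ℝ) ^ k) ^ (2 * d + 2) := by rw [hf]
      linarith) hKE hδ' q rfl
    rw [show tr v h (rv q) / (C * L) = 1 / (C * L) * tr v h (rv q) by ring]
    exact e1
  · intro q
    have hkL1 : L ≤ (k - 1) + 1 := by omega
    have e1 := z_le hE (hpow (k - 1)) hV₁ (hls (k - 1) hkL1) hcL
      (mul_nonneg (by linarith) hE0) η hηδ (fun e he => by
      have e2 := (hbox e he).2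
      have e3 : f (k - 1) (η + e) = Dl P X ((1 / 2) ^ (k - 1)) v h (η + e) +
        ((1 / 2 : ℝ) ^ (k - 1)) ^ (2 * d + 2) := by rw [hf]
      have e4 : 0 < ((1 / 2 : ℝ) ^ (k - 1)) ^ (2 * d + 2) := by positivity
      linarith) hKE hδ' q rfl
    rw [show tr v h (rv q) / (C * L) = 1 / (C * L) * tr v h (rv q) by ring, h2k]
    exact e1
  · intro n hn
    have e0 : Cs / (1 / 2) ^ k ≤ C / (1 / 2) ^ k :=
      div_le_div_of_nonneg_right hCCs (hpow k).le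
    have e1 := hslab ((1 / 2) ^ k) (Dl P X ((1 / 2) ^ k) v h η) (gt v h η) (hpow k) (hpow1 k)
      hD0 hD1 hgn (fun y => gt_sub_nl_le' hE (hpow k) hV₁ hlk η hηs y)
      ⟨v, hV₁.hv, by
        have e2 := nl_le_uu hE (hpow k) v
        rw [hV₁.one] at e2
        rw [Helper51.NP.gt_v hV₁.hv]
        exact e2⟩
      (fun D' hD' => exists_Dl hE (hpow k) hV₁ hlk η hηs hD') n (e0.trans hn)
    refine e1.trans (mul_le_mul' (ENNReal.ofReal_le_ofReal hCCs) ?_)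
    exact ENNReal.tsum_comp_le_tsum_of_injective
      (f := fun q : {q : V d // |h (rv (⌈1 / (1 / 2 : ℝ) ^ k⌉₊ • q)) - n| ≤ Cs / (1 / 2) ^ k} =>
        (⟨q.1, q.2.trans e0⟩ :
          {q : V d // |h (rv (⌈1 / (1 / 2 : ℝ) ^ k⌉₊ • q)) - n| ≤ C / (1 / 2) ^ k}))
      (fun q₁ q₂ h12 => Subtype.ext (congrArg (fun z => z.1) h12))
      (fun q => ENNReal.ofReal (Z P X ((1 / 2) ^ k) 0 (⌈1 / (1 / 2 : ℝ) ^ k⌉₊ • q.1) *
        Real.exp ((1 / 2) ^ k * gt v h η (rv (⌈1 / (1 / 2 : ℝ) ^ k⌉₊ • q.1)))))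

end Pool.Agent.Helper69.PG
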