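import Mathlib

/-!
Project PG (MP_13b103), block E: the pigeonhole of note 3123 (5).
-/

namespace Pool.Agent.Helper69.PG

open Finset

lemma card_right (J : ℤ) (b : ℤ → ℝ) (M : ℕ)
    (hq : ∀ i j k, -(J + 1) ≤ i → i < j → j < k → k ≤ J + 1 → b j ≤ max (b i) (b k))
    (hb : ∀ i, -(J + 1) ≤ i → i ≤ J + 1 → |b i| ≤ M) :
    ((Icc (-J) J).filter (fun i => b i + 1 < b (i + 1))).card ≤ 2 * M + 1 := by
  have hcard : (Icc (-(M : ℤ)) M).card = 2 * M + 1 := by
    rw [Int.card_Icc]; omega
  rw [← hcard]
  apply Finset.card_le_card_of_injOn (fun i => ⌊b i⌋)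
  · intro i hi
    simp only [coe_filter, mem_Icc, Set.mem_ofPred_eq] at hi
    obtain ⟨⟨h1, h2⟩, h3⟩ := hi
    have h4 := hb i (by omega) (by omega)
    rw [abs_le] at h4
    simp only [coe_Icc, Set.mem_Icc]
    constructor
    · rw [Int.le_floor]; push_cast; exact h4.1
    · have : (⌊b i⌋ : ℝ) ≤ M := (Int.floor_le _).trans h4.2
      exact_mod_cast this
  · have key : ∀ i j, i < j → -J ≤ i → j ≤ J → b i + 1 < b (i + 1) → b j + 1 < b (j + 1) →
        ⌊b i⌋ < ⌊b j⌋ := by
      intro i j hij hi hj h1 h2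
      have h3 : b (i + 1) ≤ b j := by
        rcases eq_or_lt_of_le (show i + 1 ≤ j by omega) with h | h
        · rw [h]
        · have h4 := hq i (i + 1) j (by omega) (by omega) h (by omega)
          rcases le_max_iff.1 h4 with h5 | h5
          · linarith
          · exact h5
      have h4 : ⌊b i⌋ + 1 ≤ ⌊b j⌋ := by
        rw [← Int.floor_add_one]
        exact Int.floor_le_floor (by linarith)
      omega
    intro i hi j hj hij
    simp only [coe_filter, mem_Icc, Set.mem_ofPred_eq] at hi hj
    have hij : ⌊b i⌋ = ⌊b j⌋ := hij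
    rcases lt_trichotomy i j with h | h | h
    · have := key i j h hi.1.1 hj.1.2 hi.2 hj.2; omega
    · exact h
    · have := key j i h hj.1.1 hi.1.2 hj.2 hi.2; omega

lemma card_left (J : ℤ) (b : ℤ → ℝ) (M : ℕ)
    (hq : ∀ i j k, -(J + 1) ≤ i → i < j → j < k → k ≤ J + 1 → b j ≤ max (b i) (b k))
    (hb : ∀ i, -(J + 1) ≤ i → i ≤ J + 1 → |b i| ≤ M) :
    ((Icc (-J) J).filter (fun i => b i + 1 < b (i - 1))).card ≤ 2 * M + 1 := by
  have h := card_right J (fun i => b (-i)) M ?_ ?_
  · refine le_trans (le_of_eq ?_) h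
    apply Finset.card_bij (fun i _ => -i)
    · intro i hi
      simp only [mem_filter, mem_Icc] at hi ⊢
      refine ⟨⟨by omega, by omega⟩, ?_⟩
      have e1 : - -i = i := by omega
      have e2 : -(-i + 1) = i - 1 := by omega
      rw [e1, e2]; exact hi.2
    · intro i _ j _ hij
      omega
    · intro i hi
      simp only [mem_filter, mem_Icc] at hi
      refine ⟨-i, ?_, by omega⟩
      simp only [mem_filter, mem_Icc]
      refine ⟨⟨by omega, by omega⟩, ?_⟩
      have e2 : -i - 1 = -(i + 1) := by omega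
      rw [e2]; exact hi.2
  · intro i j k h1 h2 h3 h4
    have := hq (-k) (-j) (-i) (by omega) (by omega) (by omega) (by omega)
    rw [max_comm]; exact this
  · intro i h1 h2
    exact hb (-i) (by omega) (by omega)

/-- the grid of integer vectors with entries in `[-J, J]` -/
noncomputable def grid (m : ℕ) (J : ℤ) : Finset (Fin m → ℤ) := Fintype.piFinset (fun _ => Icc (-J) J)

lemma mem_grid {m : ℕ} {J : ℤ} {z : Fin m → ℤ} : z ∈ grid m J ↔ ∀ i, -J ≤ z i ∧ z i ≤ J := by
  simp [grid, Fintype.mem_piFinset, mem_Icc]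

lemma card_grid_line {m : ℕ} {J : ℤ} (_hJ : 0 ≤ J) (j : Fin m) :
    (grid m J).card = (2 * J + 1).toNat *
      (Fintype.piFinset (Function.update (fun _ : Fin m => Icc (-J) J) j {0})).card := by
  rw [grid, Fintype.card_piFinset, Fintype.card_piFinset]
  rw [← Finset.mul_prod_erase univ _ (mem_univ j)]
  rw [← Finset.mul_prod_erase univ (fun i => (Function.update (fun _ : Fin m => Icc (-J) J) j {0} i).card)
    (mem_univ j)]
  have h1 : ∏ x ∈ univ.erase j, (Function.update (fun _ : Fin m => Icc (-J) J) j {0} x).card =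
      ∏ x ∈ univ.erase j, (Icc (-J) J).card := by
    apply Finset.prod_congr rfl
    intro x hx
    rw [Function.update_of_ne (Finset.ne_of_mem_erase hx)]
  rw [h1]
  simp only [Function.update_self, card_singleton, one_mul]
  congr 1
  rw [Int.card_Icc]
  congr 1
  ring

/-- bad grid points in direction `j` -/
lemma card_bad {m : ℕ} {J : ℤ} (hJ : 0 ≤ J) (a : (Fin m → ℤ) → ℝ) (M : ℕ) (j : Fin m)
    (hq : ∀ z ∈ grid m J, ∀ p q r : ℤ, -(J + 1) ≤ p → p < q → q < r → r ≤ J + 1 →
      a (Function.update z j q) ≤ max (a (Function.update z j p)) (a (Function.update z j r)))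
    (hb : ∀ z ∈ grid m J, ∀ p : ℤ, -(J + 1) ≤ p → p ≤ J + 1 → |a (Function.update z j p)| ≤ M) :
    ((grid m J).filter (fun z => a z + 1 < a (Function.update z j (z j + 1)) ∨
      a z + 1 < a (Function.update z j (z j - 1)))).card * (2 * J + 1).toNat ≤
      (4 * M + 2) * (grid m J).card := by
  set B := (grid m J).filter (fun z => a z + 1 < a (Function.update z j (z j + 1)) ∨
      a z + 1 < a (Function.update z j (z j - 1))) with hB
  set g : (Fin m → ℤ) → (Fin m → ℤ) := fun z => Function.update z j 0 with hg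
  have h1 : B.card ≤ (4 * M + 2) * (B.image g).card := by
    apply Finset.card_le_mul_card_image
    intro w hw
    obtain ⟨z0, hz0, hw0⟩ := Finset.mem_image.1 hw
    have hz0' : z0 ∈ grid m J := (Finset.mem_filter.1 hz0).1
    have hup : ∀ z, g z = w → ∀ p, Function.update z j p = Function.update z0 j p := by
      intro z hz p
      have : Function.update (g z) j p = Function.update (g z0) j p := by rw [hz, hw0]
      simpa [hg] using this
    have hself : ∀ z, g z = w → z = Function.update z0 j (z j) := by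
      intro z hz
      rw [← hup z hz (z j), Function.update_eq_self]
    have hfin : (B.filter (fun z => g z = w)).card ≤
        (((Icc (-J) J).filter (fun i => a (Function.update z0 j i) + 1 <
            a (Function.update z0 j (i + 1)))) ∪
          ((Icc (-J) J).filter (fun i => a (Function.update z0 j i) + 1 <
            a (Function.update z0 j (i - 1))))).card := by
      apply Finset.card_le_card_of_injOn (fun z => z j)
      · intro z hz
        simp only [coe_filter, Set.mem_ofPred_eq] at hz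
        obtain ⟨hz1, hz2⟩ := hz
        have hz3 := Finset.mem_filter.1 hz1
        have hz4 := mem_grid.1 hz3.1 j
        have e1 := hself z hz2
        have e2 := hup z hz2 (z j + 1)
        have e3 := hup z hz2 (z j - 1)
        simp only [coe_union, coe_filter, mem_Icc, Set.mem_union, Set.mem_ofPred_eq]
        rcases hz3.2 with h | h
        · left
          refine ⟨hz4, ?_⟩
          rw [← e1, ← e2]; exact h
        · right
          refine ⟨hz4, ?_⟩
          rw [← e1, ← e3]; exact h
      · intro z hz z' hz' hzz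
        simp only [coe_filter, Set.mem_ofPred_eq] at hz hz'
        have hzz : z j = z' j := hzz
        rw [hself z hz.2, hself z' hz'.2, hzz]
    refine hfin.trans ((Finset.card_union_le _ _).trans ?_)
    have r1 := card_right J (fun i => a (Function.update z0 j i)) M
      (fun p q r h1 h2 h3 h4 => hq z0 hz0' p q r h1 h2 h3 h4) (fun p h1 h2 => hb z0 hz0' p h1 h2)
    have r2 := card_left J (fun i => a (Function.update z0 j i)) M
      (fun p q r h1 h2 h3 h4 => hq z0 hz0' p q r h1 h2 h3 h4) (fun p h1 h2 => hb z0 hz0' p h1 h2)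
    omega
  have h2 : (B.image g).card ≤
      (Fintype.piFinset (Function.update (fun _ : Fin m => Icc (-J) J) j {0})).card := by
    apply Finset.card_le_card
    intro w hw
    obtain ⟨z, hz, rfl⟩ := Finset.mem_image.1 hw
    have hz' := mem_grid.1 (Finset.mem_filter.1 hz).1
    rw [Fintype.mem_piFinset]
    intro i
    by_cases hi : i = j
    · subst hi; simp [hg]
    · rw [Function.update_of_ne hi, hg]
      simp only [Function.update_of_ne hi, mem_Icc]
      exact hz' i
  have h3 := card_grid_line (m := m) hJ j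
  calc B.card * (2 * J + 1).toNat ≤ ((4 * M + 2) * (B.image g).card) * (2 * J + 1).toNat :=
        Nat.mul_le_mul_right _ h1
    _ ≤ ((4 * M + 2) * (Fintype.piFinset
          (Function.update (fun _ : Fin m => Icc (-J) J) j {0})).card) * (2 * J + 1).toNat :=
        Nat.mul_le_mul_right _ (Nat.mul_le_mul_left _ h2)
    _ = (4 * M + 2) * (grid m J).card := by rw [h3]; ring


/-- grid point -/
noncomputable def pt {m : ℕ} (δ : ℝ) (z : Fin m → ℤ) : Fin m → ℝ := fun i => δ * z i

lemma pt_update {m : ℕ} (δ : ℝ) (z : Fin m → ℤ) (j : Fin m) (q : ℤ) :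
    pt δ (Function.update z j q) = Function.update (pt δ z) j (δ * q) := by
  funext i
  by_cases h : i = j
  · subst h; simp [pt]
  · simp [pt, Function.update_of_ne h]

lemma quasi {m : ℕ} {s δ : ℝ} {J : ℤ} (hδ : 0 < δ) (_hJ : 0 ≤ J) (hb : δ * (J + 1) ≤ s)
    {f : (Fin m → ℝ) → ℝ} (hf : ConvexOn ℝ {η | ∀ i, |η i| ≤ s} f)
    (hpos : ∀ η, (∀ i, |η i| ≤ s) → 0 < f η) (j : Fin m) (z : Fin m → ℤ) (hz : z ∈ grid m J)
    (p q r : ℤ) (hp : -(J + 1) ≤ p) (hpq : p < q) (hqr : q < r) (hr : r ≤ J + 1) :
    Real.log (f (pt δ (Function.update z j q))) ≤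
      max (Real.log (f (pt δ (Function.update z j p)))) (Real.log (f (pt δ (Function.update z j r)))) := by
  have hbox : ∀ t : ℤ, -(J + 1) ≤ t → t ≤ J + 1 → ∀ i, |pt δ (Function.update z j t) i| ≤ s := by
    intro t h1 h2 i
    have h3 : |((Function.update z j t i : ℤ) : ℝ)| ≤ J + 1 := by
      have h4 : |Function.update z j t i| ≤ J + 1 := by
        by_cases h : i = j
        · subst h; simp only [Function.update_self]; rw [abs_le]; omega
        · rw [Function.update_of_ne h, abs_le]
          have := mem_grid.1 hz i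
          omega
      have h5 : ((|Function.update z j t i| : ℤ) : ℝ) ≤ ((J + 1 : ℤ) : ℝ) := by exact_mod_cast h4
      push_cast at h5
      exact h5
    calc |pt δ (Function.update z j t) i| = δ * |((Function.update z j t i : ℤ) : ℝ)| := by
          simp only [pt, abs_mul, abs_of_pos hδ]
      _ ≤ δ * (J + 1) := by gcongr
      _ ≤ s := hb
  have hpm := hbox p hp (by omega)
  have hqm := hbox q (by omega) (by omega)
  have hrm := hbox r (by omega) hr
  have hseg : pt δ (Function.update z j q) ∈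
      segment ℝ (pt δ (Function.update z j p)) (pt δ (Function.update z j r)) := by
    have h1 : (0 : ℝ) < r - p := by
      have : p < r := hpq.trans hqr
      have : (p : ℝ) < r := by exact_mod_cast this
      linarith
    have h2 : (p : ℝ) < q := by exact_mod_cast hpq
    have h3 : (q : ℝ) < r := by exact_mod_cast hqr
    refine ⟨(r - q) / (r - p), (q - p) / (r - p), by apply div_nonneg <;> linarith,
      by apply div_nonneg <;> linarith, by field_simp; ring, ?_⟩
    funext i
    by_cases h : i = j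
    · subst h
      simp only [pt, Function.update_self, Pi.add_apply, Pi.smul_apply, smul_eq_mul]
      field_simp
      ring
    · simp only [pt, Function.update_of_ne h, Pi.add_apply, Pi.smul_apply, smul_eq_mul]
      field_simp
      ring
  have hle := hf.le_on_segment hpm hrm hseg
  rcases le_max_iff.1 hle with h | h
  · exact le_max_of_le_left (Real.log_le_log (hpos _ hqm) h)
  · exact le_max_of_le_right (Real.log_le_log (hpos _ hqm) h)

/-- Block E of project PG: the pigeonhole (5) of note 3123. -/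
theorem pigeon (m : ℕ) {s C : ℝ} (hs : 0 < s) (hC : 1 ≤ C) :
    ∃ c K : ℝ, 0 < c ∧ c ≤ s / 2 ∧ 1 ≤ K ∧ ∀ k0 : ℕ, 1 ≤ k0 → ∀ f : ℕ → (Fin m → ℝ) → ℝ,
      (∀ k, k0 ≤ k + 1 → k < 2 * k0 → ConvexOn ℝ {η : Fin m → ℝ | ∀ i, |η i| ≤ s} (f k)) →
      (∀ k η, k0 ≤ k + 1 → k < 2 * k0 → (∀ i, |η i| ≤ s) →
        Real.exp (-(C * k0)) ≤ f k η ∧ f k η ≤ Real.exp (C * k0)) →
      (∀ k η, k0 ≤ k + 1 → k + 1 < 2 * k0 → (∀ i, |η i| ≤ s) → f (k + 1) η ≤ f k η) →
      ∃ k, k0 ≤ k ∧ k < 2 * k0 ∧ ∃ η : Fin m → ℝ, (∀ i, |η i| ≤ s / 2) ∧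
        f (k - 1) η ≤ K * f k η ∧
        ∀ i, f k (Function.update η i (η i + c / k0)) ≤ Real.exp 1 * f k η ∧
          f k (Function.update η i (η i - c / k0)) ≤ Real.exp 1 * f k η ∧
          f (k - 1) (Function.update η i (η i + c / k0)) ≤ K * f k η ∧
          f (k - 1) (Function.update η i (η i - c / k0)) ≤ K * f k η := by
  have hm0 : (0 : ℝ) < m + 1 := by positivity
  have hC0 : 0 < C := by linarith
  set c : ℝ := s / (320 * C * (m + 1)) with hc
  have hcpos : 0 < c := by positivity
  have hcs : s / c = 320 * C * (m + 1) := by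
    rw [hc]; field_simp
  have hcle : c ≤ s / 2 := by
    rw [hc]
    apply div_le_div_of_nonneg_left hs.le (by norm_num)
    nlinarith [Nat.cast_nonneg (α := ℝ) m]
  refine ⟨c, Real.exp (1 + 32 * C), hcpos, hcle, Real.one_le_exp (by linarith), ?_⟩
  intro k0 hk0 f hconv hbd hmono
  have hk0' : (1 : ℝ) ≤ k0 := by exact_mod_cast hk0
  have hk0pos : (0 : ℝ) < k0 := by linarith
  set δ : ℝ := c / k0 with hδ
  have hδpos : 0 < δ := by positivity
  have hδc : δ ≤ c := by rw [hδ]; exact div_le_self hcpos.le hk0'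
  set J : ℤ := ⌊s / 2 / δ⌋ with hJd
  have hJ0 : 0 ≤ J := Int.floor_nonneg.2 (by positivity)
  have hJle : (J : ℝ) ≤ s / 2 / δ := Int.floor_le _
  have hJlt : s / 2 / δ < J + 1 := Int.lt_floor_add_one _
  have hδJ : δ * J ≤ s / 2 := by
    have := mul_le_mul_of_nonneg_left hJle hδpos.le
    rwa [mul_div_cancel₀ _ hδpos.ne'] at this
  have hδJ1 : δ * (J + 1) ≤ s := by linarith [mul_add δ (J : ℝ) 1]
  have hsd : s / 2 / δ = 160 * C * (m + 1) * k0 := by
    have : s / 2 / δ = (s / c) * k0 / 2 := by rw [hδ]; field_simp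
    rw [this, hcs]; ring
  have hbig : 160 * C * (m + 1) * k0 ≤ 2 * (J : ℝ) + 1 := by
    rw [hsd] at hJlt
    have h1 : 1 ≤ 160 * C * (m + 1) * k0 := by
      have h2 : (1 : ℝ) ≤ m + 1 := by linarith [Nat.cast_nonneg (α := ℝ) m]
      have h3 : 1 ≤ C * (m + 1) := by nlinarith
      have h4 : 1 ≤ C * (m + 1) * k0 := by nlinarith
      nlinarith
    linarith
  set M : ℕ := ⌈C * k0⌉₊ with hM
  have hMge : C * k0 ≤ M := Nat.le_ceil _
  have hMle : (M : ℝ) ≤ C * k0 + 1 := (Nat.ceil_lt_add_one (by positivity)).le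
  have hCk : 1 ≤ C * k0 := by nlinarith
  set G : Finset (Fin m → ℤ) := grid m J with hG
  have hGne : 0 < G.card := by
    rw [Finset.card_pos]
    exact ⟨fun _ => 0, mem_grid.2 (fun _ => by omega)⟩
  have hpos : ∀ k η, k0 ≤ k + 1 → k < 2 * k0 → (∀ i, |η i| ≤ s) → 0 < f k η :=
    fun k η h1 h2 h3 => (Real.exp_pos _).trans_le (hbd k η h1 h2 h3).1
  have hboxG : ∀ z ∈ G, ∀ i, |pt δ z i| ≤ s / 2 := by
    intro z hz i
    have h1 := mem_grid.1 hz i
    have h2 : |((z i : ℤ) : ℝ)| ≤ J := by
      rw [abs_le]; constructor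
      · have : ((-J : ℤ) : ℝ) ≤ z i := by exact_mod_cast h1.1
        push_cast at this; exact this
      · exact_mod_cast h1.2
    calc |pt δ z i| = δ * |((z i : ℤ) : ℝ)| := by simp only [pt, abs_mul, abs_of_pos hδpos]
      _ ≤ δ * J := by gcongr
      _ ≤ s / 2 := hδJ
  have hboxL : ∀ z ∈ G, ∀ j, ∀ t : ℤ, -(J + 1) ≤ t → t ≤ J + 1 → ∀ i,
      |pt δ (Function.update z j t) i| ≤ s := by
    intro z hz j t h1 h2 i
    by_cases h : i = j
    · subst h
      simp only [pt, Function.update_self, abs_mul, abs_of_pos hδpos]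
      have h3 : |(t : ℝ)| ≤ J + 1 := by
        rw [abs_le]; constructor
        · have : ((-(J + 1) : ℤ) : ℝ) ≤ t := by exact_mod_cast h1
          push_cast at this; linarith
        · have : (t : ℝ) ≤ ((J + 1 : ℤ) : ℝ) := by exact_mod_cast h2
          push_cast at this; exact this
      calc δ * |(t : ℝ)| ≤ δ * (J + 1) := by gcongr
        _ ≤ s := hδJ1
    · have := hboxG z hz i
      simp only [pt, Function.update_of_ne h] at this ⊢
      linarith
  -- the bad sets
  set a : ℕ → (Fin m → ℤ) → ℝ := fun k z => Real.log (f k (pt δ z)) with ha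
  have hlogbd : ∀ k η, k0 ≤ k + 1 → k < 2 * k0 → (∀ i, |η i| ≤ s) → |Real.log (f k η)| ≤ C * k0 := by
    intro k η h1 h2 h3
    have h4 := hbd k η h1 h2 h3
    have h5 := hpos k η h1 h2 h3
    rw [abs_le]
    exact ⟨(Real.le_log_iff_exp_le h5).2 h4.1, (Real.log_le_iff_le_exp h5).2 h4.2⟩
  let bad : ℕ → Fin m → Finset (Fin m → ℤ) := fun k j =>
    G.filter (fun z => a k z + 1 < a k (Function.update z j (z j + 1)) ∨
      a k z + 1 < a k (Function.update z j (z j - 1)))
  have hbad : ∀ k j, k0 ≤ k + 1 → k < 2 * k0 →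
      ((bad k j).card : ℝ) * (16 * (m + 1)) ≤ G.card := by
    intro k j h1 h2
    have h3 := card_bad hJ0 (a k) M j
      (fun z hz p q r hp hpq hqr hr => quasi hδpos hJ0 hδJ1 (hconv k h1 h2)
        (fun η hη => hpos k η h1 h2 hη) j z hz p q r hp hpq hqr hr)
      (fun z hz p hp1 hp2 => (hlogbd k _ h1 h2 (hboxL z hz j p hp1 hp2)).trans hMge)
    have h4 : ((bad k j).card : ℝ) * (2 * J + 1) ≤ (4 * M + 2) * G.card := by
      have h5 : (((bad k j).card * (2 * J + 1).toNat : ℕ) : ℝ) ≤ (((4 * M + 2) * G.card : ℕ) : ℝ) := by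
        exact_mod_cast h3
      have h6 : (((2 * J + 1).toNat : ℕ) : ℝ) = 2 * J + 1 := by
        have : (((2 * J + 1).toNat : ℤ)) = 2 * J + 1 := Int.toNat_of_nonneg (by omega)
        have h7 : (((2 * J + 1).toNat : ℤ) : ℝ) = ((2 * J + 1 : ℤ) : ℝ) := by rw [this]
        rw [Int.cast_natCast] at h7
        rw [h7]
        push_cast
        ring
      push_cast at h5
      rw [← h6]
      linarith
    have h7 : (4 * (M : ℝ) + 2) ≤ 10 * (C * k0) := by linarith
    have h8 : ((bad k j).card : ℝ) * (160 * C * (m + 1) * k0) ≤ 10 * (C * k0) * G.card :=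
      calc ((bad k j).card : ℝ) * (160 * C * (m + 1) * k0) ≤ (bad k j).card * (2 * J + 1) := by gcongr
        _ ≤ (4 * M + 2) * G.card := h4
        _ ≤ 10 * (C * k0) * G.card := by gcongr
    have h9 : 0 < 10 * (C * k0) := by positivity
    have h10 : 10 * (C * k0) * (((bad k j).card : ℝ) * (16 * (m + 1))) ≤ 10 * (C * k0) * G.card := by
      calc 10 * (C * k0) * (((bad k j).card : ℝ) * (16 * (m + 1))) =
            ((bad k j).card : ℝ) * (160 * C * (m + 1) * k0) := by ring
        _ ≤ _ := h8
    exact le_of_mul_le_mul_left h10 h9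
  let Bad : ℕ → Finset (Fin m → ℤ) := fun k => Finset.univ.biUnion (fun j => bad k j)
  have hBad : ∀ k, k0 ≤ k + 1 → k < 2 * k0 → ((Bad k).card : ℝ) * 16 ≤ G.card := by
    intro k h1 h2
    have h3 : ((Bad k).card : ℝ) ≤ ∑ j : Fin m, ((bad k j).card : ℝ) := by
      have := Finset.card_biUnion_le (s := (Finset.univ : Finset (Fin m))) (t := fun j => bad k j)
      exact_mod_cast this
    have h4 : ∑ j : Fin m, ((bad k j).card : ℝ) * (16 * (m + 1)) ≤ ∑ _j : Fin m, (G.card : ℝ) :=
      Finset.sum_le_sum (fun j _ => hbad k j h1 h2)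
    rw [← Finset.sum_mul] at h4
    simp only [Finset.sum_const, Finset.card_univ, Fintype.card_fin, nsmul_eq_mul] at h4
    have h5 : ((Bad k).card : ℝ) * (16 * (m + 1)) ≤ m * G.card :=
      (mul_le_mul_of_nonneg_right h3 (by positivity)).trans h4
    have h6 : (m : ℝ) * G.card ≤ (m + 1) * G.card := by
      have : (0 : ℝ) ≤ G.card := Nat.cast_nonneg _
      nlinarith
    have h7 : (m + 1) * (((Bad k).card : ℝ) * 16) ≤ (m + 1) * G.card := by linarith
    exact le_of_mul_le_mul_left h7 hm0
  -- ratios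
  have hrat : ∀ z ∈ G, (((Finset.Ico k0 (2 * k0)).filter
      (fun k => a k z + 32 * C < a (k - 1) z)).card : ℝ) * 16 ≤ k0 := by
    intro z hz
    have hzb : ∀ i, |pt δ z i| ≤ s := fun i => by linarith [hboxG z hz i]
    set T := (Finset.Ico k0 (2 * k0)).filter (fun k => a k z + 32 * C < a (k - 1) z) with hT
    have h1 : (T.card : ℝ) * (32 * C) ≤ ∑ k ∈ Finset.Ico k0 (2 * k0), (a (k - 1) z - a k z) := by
      have h2 : ∑ k ∈ T, (32 * C) ≤ ∑ k ∈ T, (a (k - 1) z - a k z) := by
        apply Finset.sum_le_sum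
        intro k hk
        have := (Finset.mem_filter.1 hk).2
        linarith
      have h3 : ∑ k ∈ T, (a (k - 1) z - a k z) ≤
          ∑ k ∈ Finset.Ico k0 (2 * k0), (a (k - 1) z - a k z) := by
        apply Finset.sum_le_sum_of_subset_of_nonneg (Finset.filter_subset _ _)
        intro k hk _
        rw [Finset.mem_Ico] at hk
        obtain ⟨l, rfl⟩ : ∃ l, k = l + 1 := ⟨k - 1, by omega⟩
        have h4 := hmono l (pt δ z) hk.1 hk.2 hzb
        have h5 := Real.log_le_log (hpos (l + 1) _ (by omega) (by omega) hzb) h4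
        simp only [ha, Nat.add_sub_cancel]
        linarith
      simp only [Finset.sum_const, nsmul_eq_mul] at h2
      linarith
    have h4 : ∑ k ∈ Finset.Ico k0 (2 * k0), (a (k - 1) z - a k z) = a (k0 - 1) z - a (2 * k0 - 1) z := by
      rw [Finset.sum_Ico_eq_sum_range]
      have h5 : 2 * k0 - k0 = k0 := by omega
      rw [h5]
      have h6 : ∀ n, ∑ i ∈ Finset.range n, (a (k0 + i - 1) z - a (k0 + i) z) =
          a (k0 - 1) z - a (k0 + n - 1) z := by
        intro n
        induction n with
        | zero => simp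
        | succ n ih =>
          rw [Finset.sum_range_succ, ih]
          have : k0 + (n + 1) - 1 = k0 + n := by omega
          rw [this]; ring
      rw [h6 k0]
      have : k0 + k0 - 1 = 2 * k0 - 1 := by omega
      rw [this]
    have h5 := hlogbd (k0 - 1) (pt δ z) (by omega) (by omega) hzb
    have h6 := hlogbd (2 * k0 - 1) (pt δ z) (by omega) (by omega) hzb
    rw [abs_le] at h5 h6
    have h7 : (T.card : ℝ) * (32 * C) ≤ 2 * (C * k0) := by
      rw [h4] at h1
      simp only [ha] at h1
      linarith [h5.2, h6.1]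
    have h8 : (2 * C) * ((T.card : ℝ) * 16) ≤ (2 * C) * k0 := by linarith
    exact le_of_mul_le_mul_left h8 (by positivity)
  -- conclusion by counting
  by_contra hcon
  push Not at hcon
  set Kk := Finset.Ico k0 (2 * k0) with hKk
  have hsub : Kk ×ˢ G ⊆ (Kk.sigma (fun k => Bad k)).image (fun x => (x.1, x.2)) ∪
      ((Kk.sigma (fun k => Bad (k - 1))).image (fun x => (x.1, x.2)) ∪
      (G.sigma (fun z => Kk.filter (fun k => a k z + 32 * C < a (k - 1) z))).image
        (fun x => (x.2, x.1))) := by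
    rintro ⟨k, z⟩ hkz
    rw [Finset.mem_product] at hkz
    obtain ⟨hk, hz⟩ := hkz
    simp only at hk hz
    have hk' := Finset.mem_Ico.1 hk
    by_contra hno
    have m1 : z ∉ Bad k := fun h => hno (Finset.mem_union_left _
      (Finset.mem_image.2 ⟨⟨k, z⟩, Finset.mem_sigma.2 ⟨hk, h⟩, rfl⟩))
    have m2 : z ∉ Bad (k - 1) := fun h => hno (Finset.mem_union_right _ (Finset.mem_union_left _
      (Finset.mem_image.2 ⟨⟨k, z⟩, Finset.mem_sigma.2 ⟨hk, h⟩, rfl⟩)))
    have m3 : ¬ (a k z + 32 * C < a (k - 1) z) := fun h => hno (Finset.mem_union_right _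
      (Finset.mem_union_right _ (Finset.mem_image.2 ⟨⟨z, k⟩,
        Finset.mem_sigma.2 ⟨hz, Finset.mem_filter.2 ⟨hk, h⟩⟩, rfl⟩)))
    have hzs : ∀ i, |pt δ z i| ≤ s := fun i => by linarith [hboxG z hz i]
    have q1 : k0 ≤ k + 1 := by omega
    have q2 : k0 ≤ (k - 1) + 1 := by omega
    have q3 : k - 1 < 2 * k0 := by omega
    have p1 : 0 < f k (pt δ z) := hpos k _ q1 hk'.2 hzs
    have p2 : 0 < f (k - 1) (pt δ z) := hpos (k - 1) _ q2 q3 hzs
    have r0 : f (k - 1) (pt δ z) ≤ Real.exp (32 * C) * f k (pt δ z) := by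
      have h1 : Real.log (f (k - 1) (pt δ z)) ≤ Real.log (f k (pt δ z)) + 32 * C := not_lt.1 m3
      rw [← Real.log_exp (32 * C), ← Real.log_mul p1.ne' (Real.exp_ne_zero _)] at h1
      have := (Real.log_le_log_iff p2 (by positivity)).1 h1
      linarith
    have step : ∀ l, k0 ≤ l + 1 → l < 2 * k0 → z ∉ Bad l → ∀ i,
        f l (Function.update (pt δ z) i (pt δ z i + δ)) ≤ Real.exp 1 * f l (pt δ z) ∧
        f l (Function.update (pt δ z) i (pt δ z i - δ)) ≤ Real.exp 1 * f l (pt δ z) := by
      intro l hl1 hl2 hl i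
      have hzi := mem_grid.1 hz i
      have h1 : ¬ (a l z + 1 < a l (Function.update z i (z i + 1)) ∨
          a l z + 1 < a l (Function.update z i (z i - 1))) := fun h =>
        hl (Finset.mem_biUnion.2 ⟨i, Finset.mem_univ _, Finset.mem_filter.2 ⟨hz, h⟩⟩)
      push Not at h1
      have e1 : Function.update (pt δ z) i (pt δ z i + δ) = pt δ (Function.update z i (z i + 1)) := by
        rw [pt_update]; congr 1; simp only [pt]; push_cast; ring
      have e2 : Function.update (pt δ z) i (pt δ z i - δ) = pt δ (Function.update z i (z i - 1)) := by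
        rw [pt_update]; congr 1; simp only [pt]; push_cast; ring
      have p0 : 0 < f l (pt δ z) := hpos l _ hl1 hl2 hzs
      have pa := hpos l _ hl1 hl2 (hboxL z hz i (z i + 1) (by omega) (by omega))
      have pb := hpos l _ hl1 hl2 (hboxL z hz i (z i - 1) (by omega) (by omega))
      rw [e1, e2]
      constructor
      · have h2 := h1.1
        simp only [ha] at h2
        rw [← Real.log_exp 1, ← Real.log_mul p0.ne' (Real.exp_ne_zero _)] at h2
        have := (Real.log_le_log_iff pa (by positivity)).1 h2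
        linarith
      · have h2 := h1.2
        simp only [ha] at h2
        rw [← Real.log_exp 1, ← Real.log_mul p0.ne' (Real.exp_ne_zero _)] at h2
        have := (Real.log_le_log_iff pb (by positivity)).1 h2
        linarith
    have hKle : Real.exp (32 * C) ≤ Real.exp (1 + 32 * C) := Real.exp_le_exp.2 (by linarith)
    obtain ⟨i, hi⟩ := hcon k hk'.1 hk'.2 (pt δ z) (hboxG z hz)
      (r0.trans (mul_le_mul_of_nonneg_right hKle p1.le))
    have s1 := step k q1 hk'.2 m1 i
    have s2 := step (k - 1) q2 q3 m2 i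
    have t1 : f (k - 1) (Function.update (pt δ z) i (pt δ z i + δ)) ≤
        Real.exp (1 + 32 * C) * f k (pt δ z) := by
      rw [Real.exp_add, mul_assoc]
      exact s2.1.trans (mul_le_mul_of_nonneg_left r0 (Real.exp_pos _).le)
    have t2 : f (k - 1) (Function.update (pt δ z) i (pt δ z i - δ)) ≤
        Real.exp (1 + 32 * C) * f k (pt δ z) := by
      rw [Real.exp_add, mul_assoc]
      exact s2.2.trans (mul_le_mul_of_nonneg_left r0 (Real.exp_pos _).le)
    exact absurd t2 (not_le.2 (hi s1.1 s1.2 t1))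
  have hcount := Finset.card_le_card hsub
  have hKcard : Kk.card = k0 := by rw [hKk, Nat.card_Ico]; omega
  have c1 : (((Kk.sigma (fun k => Bad k)).image (fun x => (x.1, x.2))).card : ℝ) * 16 ≤ k0 * G.card := by
    have h1 : (((Kk.sigma (fun k => Bad k)).image (fun x => (x.1, x.2))).card : ℝ) ≤
        ∑ k ∈ Kk, ((Bad k).card : ℝ) := by
      have := Finset.card_image_le (s := Kk.sigma (fun k => Bad k)) (f := fun x => (x.1, x.2))
      rw [Finset.card_sigma] at this
      exact_mod_cast this
    have h2 : ∑ k ∈ Kk, ((Bad k).card : ℝ) * 16 ≤ ∑ _k ∈ Kk, (G.card : ℝ) := by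
      apply Finset.sum_le_sum
      intro k hk
      have := Finset.mem_Ico.1 hk
      exact hBad k (by omega) this.2
    rw [← Finset.sum_mul] at h2
    simp only [Finset.sum_const, nsmul_eq_mul, hKcard] at h2
    linarith [mul_le_mul_of_nonneg_right h1 (show (0 : ℝ) ≤ 16 by norm_num)]
  have c2 : (((Kk.sigma (fun k => Bad (k - 1))).image (fun x => (x.1, x.2))).card : ℝ) * 16 ≤
      k0 * G.card := by
    have h1 : (((Kk.sigma (fun k => Bad (k - 1))).image (fun x => (x.1, x.2))).card : ℝ) ≤
        ∑ k ∈ Kk, ((Bad (k - 1)).card : ℝ) := by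
      have := Finset.card_image_le (s := Kk.sigma (fun k => Bad (k - 1))) (f := fun x => (x.1, x.2))
      rw [Finset.card_sigma] at this
      exact_mod_cast this
    have h2 : ∑ k ∈ Kk, ((Bad (k - 1)).card : ℝ) * 16 ≤ ∑ _k ∈ Kk, (G.card : ℝ) := by
      apply Finset.sum_le_sum
      intro k hk
      have := Finset.mem_Ico.1 hk
      exact hBad (k - 1) (by omega) (by omega)
    rw [← Finset.sum_mul] at h2
    simp only [Finset.sum_const, nsmul_eq_mul, hKcard] at h2
    linarith [mul_le_mul_of_nonneg_right h1 (show (0 : ℝ) ≤ 16 by norm_num)]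
  have c3 : (((G.sigma (fun z => Kk.filter (fun k => a k z + 32 * C < a (k - 1) z))).image
        (fun x => (x.2, x.1))).card : ℝ) * 16 ≤ k0 * G.card := by
    have h1 : (((G.sigma (fun z => Kk.filter (fun k => a k z + 32 * C < a (k - 1) z))).image
        (fun x => (x.2, x.1))).card : ℝ) ≤
        ∑ z ∈ G, ((Kk.filter (fun k => a k z + 32 * C < a (k - 1) z)).card : ℝ) := by
      have := Finset.card_image_le
        (s := G.sigma (fun z => Kk.filter (fun k => a k z + 32 * C < a (k - 1) z)))
        (f := fun x => (x.2, x.1))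
      rw [Finset.card_sigma] at this
      exact_mod_cast this
    have h2 : ∑ z ∈ G, ((Kk.filter (fun k => a k z + 32 * C < a (k - 1) z)).card : ℝ) * 16 ≤
        ∑ _z ∈ G, (k0 : ℝ) := Finset.sum_le_sum (fun z hz => hrat z hz)
    rw [← Finset.sum_mul] at h2
    simp only [Finset.sum_const, nsmul_eq_mul] at h2
    linarith [mul_le_mul_of_nonneg_right h1 (show (0 : ℝ) ≤ 16 by norm_num)]
  have hc' : ((Kk ×ˢ G).card : ℝ) ≤
      (((Kk.sigma (fun k => Bad k)).image (fun x => (x.1, x.2))).card : ℝ) +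
      ((((Kk.sigma (fun k => Bad (k - 1))).image (fun x => (x.1, x.2))).card : ℝ) +
      (((G.sigma (fun z => Kk.filter (fun k => a k z + 32 * C < a (k - 1) z))).image
        (fun x => (x.2, x.1))).card : ℝ)) := by
    have h1 := hcount.trans (Finset.card_union_le _ _)
    have h2 := Finset.card_union_le ((Kk.sigma (fun k => Bad (k - 1))).image (fun x => (x.1, x.2)))
      ((G.sigma (fun z => Kk.filter (fun k => a k z + 32 * C < a (k - 1) z))).image
        (fun x => (x.2, x.1)))
    have h3 := h1.trans (Nat.add_le_add_left h2 _)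
    exact_mod_cast h3
  rw [Finset.card_product, hKcard] at hc'
  push_cast at hc'
  have hG' : (0 : ℝ) < G.card := by exact_mod_cast hGne
  have hprod : (0 : ℝ) < k0 * G.card := by positivity
  linarith

end Pool.Agent.Helper69.PG
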